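import Pool.Agent.N470.RW.Walk

set_option autoImplicit false

/-! # Random words and elements of a lattice: the elements with infinite orbit are rarely hit -/

namespace Pool.Agent.N470.RW

open Finset

open scoped Classical

section

variable {Γ Ω : Type} [Group Γ] [Lattice Ω] [MulAction Γ Ω] {s : ℕ}

/-- `Q` lies below the translate `g • κ`, but nothing above `Q` with a finite orbit does -/
def UU (κ Q : Ω) (g : Γ) : Prop :=
  Q ≤ g • κ ∧ ¬ ∃ Q', Q ≤ Q' ∧ (MulAction.orbit Γ Q').Finite ∧ Q' ≤ g • κ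

noncomputable def ind (κ Q : Ω) (g : Γ) : ℝ := if UU κ Q g then 1 else 0

theorem ind_nonneg (κ Q : Ω) (g : Γ) : 0 ≤ ind κ Q g := by
  unfold ind; split_ifs <;> norm_num

theorem ind_le (κ Q : Ω) (g : Γ) : ind κ Q g ≤ 1 := by
  unfold ind; split_ifs <;> norm_num

theorem le_smul_iff (hmono : ∀ (g : Γ) (a b : Ω), a ≤ b → g • a ≤ g • b) (g : Γ) (a b : Ω) :
    a ≤ g • b ↔ g⁻¹ • a ≤ b := by
  constructor
  · intro h
    have := hmono g⁻¹ _ _ h
    rwa [inv_smul_smul] at this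
  · intro h
    have := hmono g _ _ h
    rwa [smul_inv_smul] at this

theorem UU_mul (hmono : ∀ (g : Γ) (a b : Ω), a ≤ b → g • a ≤ g • b) (κ Q : Ω) (g h : Γ) :
    UU κ Q (g * h) ↔ UU κ (g⁻¹ • Q) h := by
  unfold UU
  rw [mul_smul, le_smul_iff hmono]
  refine and_congr Iff.rfl (not_congr ?_)
  constructor
  · rintro ⟨Q', h1, h2, h3⟩
    refine ⟨g⁻¹ • Q', hmono _ _ _ h1, ?_, ?_⟩
    · rwa [MulAction.orbit_smul]
    · rwa [← le_smul_iff hmono]
  · rintro ⟨Q', h1, h2, h3⟩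
    refine ⟨g • Q', ?_, ?_, hmono _ _ _ h3⟩
    · rwa [le_smul_iff hmono]
    · rwa [MulAction.orbit_smul]

theorem UU_sup {κ Q₁ Q₂ : Ω} {h : Γ} (h1 : UU κ Q₁ h) (h2 : UU κ Q₂ h) : UU κ (Q₁ ⊔ Q₂) h := by
  refine ⟨sup_le h1.1 h2.1, ?_⟩
  rintro ⟨Q', h3, h4, h5⟩
  exact h1.2 ⟨Q', le_sup_left.trans h3, h4, h5⟩

theorem ind_mul (hmono : ∀ (g : Γ) (a b : Ω), a ≤ b → g • a ≤ g • b) (κ Q : Ω) (g h : Γ) :
    ind κ Q (g * h) = ind κ (g⁻¹ • Q) h := by
  unfold ind
  simp only [UU_mul hmono]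

theorem ind_prod_le (κ Q₁ Q₂ : Ω) (h : Γ) : ind κ Q₁ h * ind κ Q₂ h ≤ ind κ (Q₁ ⊔ Q₂) h := by
  unfold ind
  by_cases h1 : UU κ Q₁ h
  · by_cases h2 : UU κ Q₂ h
    · rw [if_pos h1, if_pos h2, if_pos (UU_sup h1 h2), one_mul]
    · rw [if_neg h2, mul_zero]
      split_ifs <;> norm_num
  · rw [if_neg h1, zero_mul]
    split_ifs <;> norm_num

theorem num_step (s N : ℝ) (k : ℕ) (hs : 1 ≤ s) (hN : 1 ≤ N) (M : ℝ) (hM1 : Real.sqrt N ≤ M)
    (hM2 : M ≤ 2 * Real.sqrt N) (x : ℝ)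
    (hx : x ^ 2 ≤ 6 * Real.sqrt (s / M) + 6 * s * N ^ (-((1 / 2 : ℝ) ^ (k + 2)))) :
    M / N + x ≤ 6 * s * N ^ (-((1 / 2 : ℝ) ^ (k + 3))) := by
  have hN0 : 0 < N := by linarith
  set t : ℝ := N ^ (-((1 / 2 : ℝ) ^ (k + 3))) with ht
  have ht0 : 0 < t := Real.rpow_pos_of_pos hN0 _
  have ht2 : t ^ 2 = N ^ (-((1 / 2 : ℝ) ^ (k + 2))) := by
    rw [ht, ← Real.rpow_natCast, ← Real.rpow_mul hN0.le]
    congr 1
    rw [pow_succ (1 / 2 : ℝ) (k + 2)]
    push_cast
    ring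
  have hsq : Real.sqrt N = N ^ (1 / 2 : ℝ) := Real.sqrt_eq_rpow N
  have hsN : 1 ≤ Real.sqrt N := by
    rw [show (1 : ℝ) = Real.sqrt 1 by simp]
    exact Real.sqrt_le_sqrt hN
  have hM0 : 0 < M := by linarith
  -- sqrt (s / M) ≤ s t ^ 2
  have h1 : Real.sqrt (s / M) ≤ s * t ^ 2 := by
    rw [ht2]
    have e1 : s / M ≤ (s * N ^ (-(1 / 4 : ℝ))) ^ 2 := by
      rw [mul_pow, ← Real.rpow_natCast (N ^ (-(1 / 4 : ℝ))), ← Real.rpow_mul hN0.le]
      have e2 : (-(1 / 4 : ℝ)) * ((2 : ℕ) : ℝ) = -(1 / 2) := by norm_num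
      rw [e2, Real.rpow_neg hN0.le, ← hsq, ← div_eq_mul_inv]
      apply div_le_div₀ (by positivity) _ (by linarith) hM1
      nlinarith
    have e3 : Real.sqrt (s / M) ≤ s * N ^ (-(1 / 4 : ℝ)) := by
      rw [show s * N ^ (-(1 / 4 : ℝ)) = Real.sqrt ((s * N ^ (-(1 / 4 : ℝ))) ^ 2) from
        (Real.sqrt_sq (by positivity)).symm]
      exact Real.sqrt_le_sqrt e1
    refine e3.trans ?_
    apply mul_le_mul_of_nonneg_left _ (by linarith)
    apply Real.rpow_le_rpow_of_exponent_le hN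
    have e4 : (1 / 2 : ℝ) ^ (k + 2) ≤ 1 / 4 := by
      calc (1 / 2 : ℝ) ^ (k + 2) ≤ (1 / 2) ^ 2 :=
            pow_le_pow_of_le_one (by norm_num) (by norm_num) (by omega)
        _ = 1 / 4 := by norm_num
    linarith
  have h2 : x ^ 2 ≤ (4 * s * t) ^ 2 := by
    rw [← ht2] at hx
    have e5 : (4 * s * t) ^ 2 = 16 * s ^ 2 * t ^ 2 := by ring
    rw [e5]
    have e6 : s ≤ s ^ 2 := by nlinarith
    have e7 : 0 ≤ t ^ 2 := by positivity
    nlinarith
  have h3 : x ≤ 4 * s * t := by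
    exact (le_abs_self x).trans (abs_le_of_sq_le_sq h2 (by positivity))
  have h4 : M / N ≤ 2 * t := by
    have e8 : M / N ≤ 2 * N ^ (-(1 / 2 : ℝ)) := by
      rw [div_le_iff₀ hN0]
      refine hM2.trans ?_
      rw [hsq, mul_assoc]
      have : N ^ (-(1 / 2 : ℝ)) * N = N ^ (1 / 2 : ℝ) := by
        nth_rewrite 2 [← Real.rpow_one N]
        rw [← Real.rpow_add hN0]
        norm_num
      rw [this]
    refine e8.trans ?_
    apply mul_le_mul_of_nonneg_left _ (by norm_num)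
    apply Real.rpow_le_rpow_of_exponent_le hN
    have e9 : (1 / 2 : ℝ) ^ (k + 3) ≤ 1 / 2 := by
      calc (1 / 2 : ℝ) ^ (k + 3) ≤ (1 / 2) ^ 1 :=
            pow_le_pow_of_le_one (by norm_num) (by norm_num) (by omega)
        _ = 1 / 2 := by norm_num
    linarith
  nlinarith

/-- **Lattice elements are rarely below the random translates**, except through finite orbits. -/
theorem abs_main (hmono : ∀ (g : Γ) (a b : Ω), a ≤ b → g • a ≤ g • b) (rk : Ω → ℕ)
    (hrk : StrictMono rk) (hinv : ∀ (g : Γ) (a : Ω), rk (g • a) = rk a) (D : ℕ)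
    (hD : ∀ a, rk a ≤ D) (hs : 1 ≤ s) (a : Fin s → Γ)
    (hgen : Subgroup.closure (Set.range a) = ⊤) (κ : Ω) (k : ℕ) :
    ∀ Q : Ω, D ≤ rk Q + k → ∀ N : ℕ, 1 ≤ N →
      AA a N (ind κ Q) ≤ 6 * s * (N : ℝ) ^ (-((1 / 2 : ℝ) ^ (k + 2))) := by
  have hs1 : (1 : ℝ) ≤ s := by exact_mod_cast hs
  have hfin0 : ∀ Q : Ω, (MulAction.orbit Γ Q).Finite → ∀ N : ℕ, AA a N (ind κ Q) = 0 := by
    intro Q hQ N
    have h1 : ∀ g : Γ, ind κ Q g = 0 := by
      intro g
      unfold ind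
      rw [if_neg]
      rintro ⟨h2, h3⟩
      exact h3 ⟨Q, le_rfl, hQ, h2⟩
    have h2 : ind κ Q = fun _ : Γ => (0 : ℝ) := funext h1
    unfold AA
    rw [h2]
    simp only [EE_words]
    simp
  induction k with
  | zero =>
    intro Q hQ N hN
    rw [add_zero] at hQ
    rw [hfin0 Q]
    · positivity
    · refine Set.Finite.subset (Set.finite_singleton Q) ?_
      rintro _ ⟨g, rfl⟩
      have h1 : ∀ g : Γ, g • Q ≤ Q := by
        intro g
        by_contra hcon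
        have h2 : Q < Q ⊔ g • Q := by
          refine lt_of_le_of_ne le_sup_left ?_
          intro h
          exact hcon (le_sup_right.trans h.symm.le)
        have h3 := hrk h2
        have h4 := hD (Q ⊔ g • Q)
        omega
      have h5 : Q ≤ g • Q := by
        rw [le_smul_iff hmono]
        exact h1 _
      exact le_antisymm (h1 g) h5
  | succ k ih =>
    intro Q hQ N hN
    have hN1 : (1 : ℝ) ≤ N := by exact_mod_cast hN
    by_cases hfin : (MulAction.orbit Γ Q).Finite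
    · rw [hfin0 Q hfin]
      positivity
    have hinf : (MulAction.orbit Γ Q).Infinite := hfin
    set M : ℕ := ⌈Real.sqrt N⌉₊ with hM
    have hsN : 1 ≤ Real.sqrt N := by
      rw [show (1 : ℝ) = Real.sqrt 1 by simp]
      exact Real.sqrt_le_sqrt hN1
    have hM1 : Real.sqrt N ≤ M := Nat.le_ceil _
    have hM2 : (M : ℝ) ≤ 2 * Real.sqrt N := by
      have := (Nat.ceil_lt_add_one (show 0 ≤ Real.sqrt N by positivity)).le
      linarith
    have hMpos : 1 ≤ M := by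
      have : (1 : ℝ) ≤ M := hsN.trans hM1
      exact_mod_cast this
    obtain ⟨P, hP⟩ := exists_AA hs a M hMpos
    obtain ⟨R, hR⟩ := exists_AA hs a N hN
    have h1 := AA_shift hs a N M hN hMpos (ind_nonneg κ Q) (ind_le κ Q)
    refine h1.trans ?_
    refine num_step s N k hs1 hN1 M hM1 hM2 _ ?_
    simp only [ind_mul hmono]
    rw [hP]
    simp only [hR]
    rw [P.E_comm R]
    refine (R.E_sq _).trans ?_
    have h2 : ∀ h : Γ, (P.E fun g => ind κ (g⁻¹ • Q) h) ^ 2 =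
        P.E fun g => P.E fun g' => ind κ (g⁻¹ • Q) h * ind κ (g'⁻¹ • Q) h := by
      intro h
      simp only [P.E_mul_left]
      rw [sq]
      have := P.E_mul_left (P.E fun g => ind κ (g⁻¹ • Q) h) (fun g => ind κ (g⁻¹ • Q) h)
      rw [← this]
      congr 1
      funext g
      ring
    simp only [h2]
    rw [R.E_comm P]
    have h3 : ∀ g : Γ, (R.E fun h => P.E fun g' => ind κ (g⁻¹ • Q) h * ind κ (g'⁻¹ • Q) h) ≤
        6 * Real.sqrt (s / M) + 6 * s * (N : ℝ) ^ (-((1 / 2 : ℝ) ^ (k + 2))) := by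
      intro g
      rw [R.E_comm P]
      have h4 : ∀ g' : Γ, (R.E fun h => ind κ (g⁻¹ • Q) h * ind κ (g'⁻¹ • Q) h) ≤
          pm Q (g⁻¹ • Q) g' + 6 * s * (N : ℝ) ^ (-((1 / 2 : ℝ) ^ (k + 2))) := by
        intro g'
        have hpos : 0 ≤ 6 * s * (N : ℝ) ^ (-((1 / 2 : ℝ) ^ (k + 2))) := by positivity
        by_cases heq : g'⁻¹ • Q = g⁻¹ • Q
        · have h5 : (R.E fun h => ind κ (g⁻¹ • Q) h * ind κ (g'⁻¹ • Q) h) ≤ R.E fun _ => 1 := by
            refine R.E_mono fun h => ?_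
            exact mul_le_one₀ (ind_le _ _ _) (ind_nonneg _ _ _) (ind_le _ _ _)
          rw [R.E_const] at h5
          unfold pm
          rw [if_pos heq]
          linarith
        · have h5 : (R.E fun h => ind κ (g⁻¹ • Q) h * ind κ (g'⁻¹ • Q) h) ≤
              R.E (ind κ (g⁻¹ • Q ⊔ g'⁻¹ • Q)) := R.E_mono fun h => ind_prod_le _ _ _ _
          have h6 : rk Q < rk (g⁻¹ • Q ⊔ g'⁻¹ • Q) := by
            by_contra hcon
            push Not at hcon
            have e1 : g⁻¹ • Q = g⁻¹ • Q ⊔ g'⁻¹ • Q := by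
              by_contra hne
              have := hrk (lt_of_le_of_ne (le_sup_left (a := g⁻¹ • Q) (b := g'⁻¹ • Q)) hne)
              rw [hinv] at this
              omega
            have e2 : g'⁻¹ • Q = g⁻¹ • Q ⊔ g'⁻¹ • Q := by
              by_contra hne
              have := hrk (lt_of_le_of_ne (le_sup_right (a := g⁻¹ • Q) (b := g'⁻¹ • Q)) hne)
              rw [hinv] at this
              omega
            exact heq (e2.trans e1.symm)
          have h7 := ih (g⁻¹ • Q ⊔ g'⁻¹ • Q) (by omega) N hN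
          rw [hR] at h7
          have h8 := pm_nonneg Q (g⁻¹ • Q) g'
          linarith
      refine (P.E_mono h4).trans ?_
      rw [P.E_add, P.E_const, ← hP]
      have := walk hs a hgen Q hinf M hMpos (g⁻¹ • Q)
      linarith
    refine (P.E_mono h3).trans ?_
    rw [P.E_const]

end

end Pool.Agent.N470.RW
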