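import Pool.Agent.N470.RW.Main
import Pool.Agent.TH717.GO.Hyb2

set_option autoImplicit false

/-! # On a curve the powers of a matrix hit every finite set rarely -/

namespace Pool.Agent.N470.RW

open Pool.Agent.TH717.GO Pool.Agent.H533R3.SL

section

variable {n : ℕ}

theorem curve_hits {k : Type} [Field k] (FF : Set (MvPolynomial (Fin (n + 1)) k))
    (G : MvPolynomial (Fin (n + 1)) k) {K : Type} [Field K] [NumberField K] [Algebra k K] {N : ℕ}
    (w : Fin N → Fin (n + 1) → K)
    (h1 : ∀ F ∈ FF, MvPolynomial.aeval (cur w (fun j => (j : ℕ))) F = 0)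
    (h2 : ∃ i j, cur w (fun j => (j : ℕ)) i * Polynomial.C ((cur w (fun j => (j : ℕ)) j).eval 1) ≠
        cur w (fun j => (j : ℕ)) j * Polynomial.C ((cur w (fun j => (j : ℕ)) i).eval 1))
    (h3 : MvPolynomial.aeval (fun i => (cur w (fun j => (j : ℕ)) i).eval 1) G ≠ 0)
    (E : Set (Projectivization K (Fin (n + 1) → K))) (hE : E.Finite) :
    {m : ℕ | ¬ ∀ u : Fin m → Fin 1, u ∈ hitsG FF G (M0 w)
      (fun _ : Fin 1 => dia K N (Multiplicative.ofAdd 1)) (fun _ => 1) E m}.Finite := by
  classical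
  let q : Fin (n + 1) → Polynomial K := cur w (fun j => (j : ℕ))
  have hevG : ∀ (F : MvPolynomial (Fin (n + 1)) k) (t : K), (MvPolynomial.aeval q F).eval t =
      MvPolynomial.aeval (fun i => (q i).eval t) F := by
    intro F t
    exact MvPolynomial.comp_aeval_apply (R := k) q
      ((Polynomial.aeval t : Polynomial K →ₐ[K] K).restrictScalars k) F
  have horb : ∀ m : Multiplicative ℤ, orb (M0 w) (dia K N) (fun _ => 1) m =
      fun i => (q i).eval ((2 : K) ^ (Multiplicative.toAdd m)) := by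
    intro m
    funext i
    show ∑ j, M0 w i j * ((Matrix.diagonal fun j : Fin N =>
      ((2 : K) ^ (Multiplicative.toAdd m)) ^ (j : ℕ)).mulVec fun _ => 1) j = _
    show _ = (cur w (fun j : Fin N => (j : ℕ)) i).eval _
    unfold cur
    rw [Polynomial.eval_finsetSum]
    refine Finset.sum_congr rfl fun j _ => ?_
    rw [Matrix.mulVec_diagonal, Polynomial.eval_mul, Polynomial.eval_C, Polynomial.eval_pow,
      Polynomial.eval_X, mul_one]
    rfl
  have hwv : ∀ (m : ℕ) (u : Fin m → Fin 1), wvec (M0 w)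
      (fun _ : Fin 1 => dia K N (Multiplicative.ofAdd 1)) (fun _ => 1) u =
      fun i => (q i).eval ((2 : K) ^ m) := by
    intro m u
    have e1 := horb ((Multiplicative.ofAdd (1 : ℤ)) ^ m)
    have e2 : Multiplicative.toAdd ((Multiplicative.ofAdd (1 : ℤ)) ^ m) = (m : ℤ) := by
      rw [toAdd_pow]
      simp
    rw [e2, zpow_natCast] at e1
    rw [← e1]
    unfold wvec orb
    rw [List.ofFn_const, List.prod_replicate, ← map_pow]
  have hG0 : MvPolynomial.aeval q G ≠ 0 := by
    intro h
    apply h3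
    have := hevG G 1
    rw [h, Polynomial.eval_zero] at this
    exact this.symm
  obtain ⟨i1, i2, a, b, hab⟩ := Pool.Agent.TH409.SH.nonconst_of q h2
  have hq0 : q i1 ≠ 0 ∨ q i2 ≠ 0 := by
    by_contra h
    push Not at h
    apply hab
    rw [h.1, h.2]
  have h2inj : Function.Injective (fun m : ℕ => (2 : K) ^ m) := by
    intro m m' h
    have h4 : ((2 ^ m : ℕ) : K) = ((2 ^ m' : ℕ) : K) := by push_cast; exact h
    exact Nat.pow_right_injective (le_refl 2) (Nat.cast_injective h4)
  -- all but finitely many powers of two are good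
  let Q : Polynomial K := MvPolynomial.aeval q G * (if q i1 = 0 then q i2 else q i1)
  have hQ : Q ≠ 0 := by
    refine mul_ne_zero hG0 ?_
    split_ifs with h
    · rcases hq0 with h' | h'
      · exact absurd h h'
      · exact h'
    · exact h
  let good : Set ℕ := {m | Q.eval ((2 : K) ^ m) ≠ 0}
  have hgood : goodᶜ.Finite := by
    refine Set.Finite.of_finite_image (f := fun m : ℕ => (2 : K) ^ m) ?_ h2inj.injOn
    refine (Q.roots.toFinset.finite_toSet).subset ?_
    rintro _ ⟨m, hm, rfl⟩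
    have : Q.eval ((2 : K) ^ m) = 0 := by
      by_contra h
      exact hm h
    simpa [hQ] using this
  have hgne : ∀ m ∈ good, (fun i => (q i).eval ((2 : K) ^ m)) ≠ 0 := by
    intro m hm h0
    apply hm
    show (MvPolynomial.aeval q G * (if q i1 = 0 then q i2 else q i1)).eval ((2 : K) ^ m) = 0
    rw [Polynomial.eval_mul]
    have h5 : ∀ i, (q i).eval ((2 : K) ^ m) = 0 := fun i => congrFun h0 i
    split_ifs
    · rw [h5, mul_zero]
    · rw [h5, mul_zero]
  have hgG : ∀ m ∈ good, MvPolynomial.aeval (fun i => (q i).eval ((2 : K) ^ m)) G ≠ 0 := by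
    intro m hm h0
    apply hm
    show (MvPolynomial.aeval q G * (if q i1 = 0 then q i2 else q i1)).eval ((2 : K) ^ m) = 0
    rw [Polynomial.eval_mul, hevG, h0, zero_mul]
  let pt : ℕ → Projectivization K (Fin (n + 1) → K) := fun m =>
    if h : (fun i => (q i).eval ((2 : K) ^ m)) ≠ 0 then Projectivization.mk K _ h
    else Projectivization.mk K (fun _ => 1) (fun h => one_ne_zero (congrFun h 0))
  have hfinP : ∀ P, (good ∩ pt ⁻¹' {P}).Finite := by
    intro P
    by_contra hP'
    have hP : (good ∩ pt ⁻¹' {P}).Infinite := hP'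
    obtain ⟨m0, hm0, hm0P⟩ := hP.nonempty
    have hrel : ∀ i j, q i * Polynomial.C ((q j).eval ((2 : K) ^ m0)) =
        q j * Polynomial.C ((q i).eval ((2 : K) ^ m0)) := by
      intro i j
      rw [← sub_eq_zero]
      refine Polynomial.eq_zero_of_infinite_isRoot _ ?_
      refine Set.Infinite.mono ?_ (hP.image h2inj.injOn)
      rintro _ ⟨m, ⟨hm, hmP⟩, rfl⟩
      have h8 : pt m = pt m0 := by
        rw [show pt m = P from hmP, show pt m0 = P from hm0P]
      simp only [pt, dif_pos (hgne m hm), dif_pos (hgne m0 hm0)] at h8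
      rw [Projectivization.mk_eq_mk_iff'] at h8
      obtain ⟨c, hc⟩ := h8
      have hci : ∀ i, c * (q i).eval ((2 : K) ^ m0) = (q i).eval ((2 : K) ^ m) := fun i =>
        congrFun hc i
      show (q i * Polynomial.C ((q j).eval ((2 : K) ^ m0)) -
        q j * Polynomial.C ((q i).eval ((2 : K) ^ m0))).eval ((2 : K) ^ m) = 0
      rw [Polynomial.eval_sub, Polynomial.eval_mul, Polynomial.eval_mul, Polynomial.eval_C,
        Polynomial.eval_C, ← hci i, ← hci j]
      ring
    obtain ⟨i0, hi0⟩ : ∃ i, (q i).eval ((2 : K) ^ m0) ≠ 0 := by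
      by_contra h
      push Not at h
      exact hgne m0 hm0 (funext h)
    apply hab
    have e1 := congrArg (Polynomial.eval a) (hrel i1 i0)
    have e2 := congrArg (Polynomial.eval b) (hrel i2 i0)
    have e3 := congrArg (Polynomial.eval a) (hrel i2 i0)
    have e4 := congrArg (Polynomial.eval b) (hrel i1 i0)
    simp only [Polynomial.eval_mul, Polynomial.eval_C] at e1 e2 e3 e4
    have hne2 : (q i0).eval ((2 : K) ^ m0) * (q i0).eval ((2 : K) ^ m0) ≠ 0 := mul_ne_zero hi0 hi0
    apply mul_right_cancel₀ hne2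
    calc (q i1).eval a * (q i2).eval b * ((q i0).eval ((2 : K) ^ m0) * (q i0).eval ((2 : K) ^ m0))
        = ((q i1).eval a * (q i0).eval ((2 : K) ^ m0)) *
          ((q i2).eval b * (q i0).eval ((2 : K) ^ m0)) := by ring
      _ = ((q i0).eval a * (q i1).eval ((2 : K) ^ m0)) *
          ((q i0).eval b * (q i2).eval ((2 : K) ^ m0)) := by rw [e1, e2]
      _ = ((q i0).eval a * (q i2).eval ((2 : K) ^ m0)) *
          ((q i0).eval b * (q i1).eval ((2 : K) ^ m0)) := by ring
      _ = ((q i2).eval a * (q i0).eval ((2 : K) ^ m0)) *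
          ((q i1).eval b * (q i0).eval ((2 : K) ^ m0)) := by rw [e3, e4]
      _ = (q i2).eval a * (q i1).eval b *
          ((q i0).eval ((2 : K) ^ m0) * (q i0).eval ((2 : K) ^ m0)) := by ring
  refine (hgood.union (hE.biUnion fun P _ => hfinP P)).subset ?_
  intro m hm
  by_cases hg : m ∈ good
  · right
    by_contra hcon
    apply hm
    intro u
    refine ⟨?_, ?_, ?_⟩
    · intro F hF
      rw [hwv, ← hevG]
      show (MvPolynomial.aeval (cur w (fun j => (j : ℕ))) F).eval _ = 0
      rw [h1 F hF, Polynomial.eval_zero]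
    · rw [hwv]
      exact hgG m hg
    · have hne : wvec (M0 w) (fun _ : Fin 1 => dia K N (Multiplicative.ofAdd 1)) (fun _ => 1) u ≠ 0 := by
        rw [hwv]
        exact hgne m hg
      refine ⟨hne, fun hmem => hcon ?_⟩
      refine Set.mem_biUnion hmem ⟨hg, ?_⟩
      show pt m = _
      simp only [pt, dif_pos (hgne m hg)]
      rw [Projectivization.mk_eq_mk_iff']
      exact ⟨1, by rw [one_smul, hwv]⟩
  · left
    exact hg

/-- a set of natural numbers with finite complement is not of density zero -/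
theorem count_contra (f : ℕ → ℝ) (hf : ∀ m, 0 ≤ f m) (B : Set ℕ) (hB : B.Finite)
    (hfB : ∀ m, m ∉ B → 1 ≤ f m) (C c : ℝ) (hc : 0 < c)
    (h : ∀ N : ℕ, 1 ≤ N → ∑ m ∈ Finset.range N, f m ≤ C * (N : ℝ) ^ (1 - c)) : False := by
  classical
  have h1 : ∀ N : ℕ, 1 ≤ N → (1 : ℝ) ≤ (hB.toFinset.card : ℝ) * (N : ℝ)⁻¹ + C * (N : ℝ) ^ (-c) := by
    intro N hN
    have hN0 : (0 : ℝ) < N := by positivity
    have e1 : (N : ℝ) ≤ hB.toFinset.card + ∑ m ∈ Finset.range N, f m := by
      have e2 : (N : ℝ) = ∑ m ∈ Finset.range N, (1 : ℝ) := by simp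
      have e3 : ∑ m ∈ Finset.range N, (1 : ℝ) ≤
          ∑ m ∈ Finset.range N, ((if m ∈ hB.toFinset then 1 else 0) + f m) := by
        refine Finset.sum_le_sum fun m _ => ?_
        by_cases hm : m ∈ B
        · rw [if_pos (hB.mem_toFinset.2 hm)]
          linarith [hf m]
        · rw [if_neg (fun h => hm (hB.mem_toFinset.1 h)), zero_add]
          exact hfB m hm
      rw [Finset.sum_add_distrib] at e3
      have e4 : ∑ m ∈ Finset.range N, (if m ∈ hB.toFinset then (1 : ℝ) else 0) ≤
          hB.toFinset.card := by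
        rw [← Finset.sum_filter, Finset.sum_const, nsmul_eq_mul, mul_one]
        exact_mod_cast Finset.card_le_card (fun x hx => (Finset.mem_filter.1 hx).2)
      linarith
    have e5 := h N hN
    have e6 : (N : ℝ) ^ (1 - c) = N * (N : ℝ) ^ (-c) := by
      rw [sub_eq_add_neg, Real.rpow_add hN0, Real.rpow_one]
    rw [e6] at e5
    have e7 : (N : ℝ) * 1 ≤ N * ((hB.toFinset.card : ℝ) * (N : ℝ)⁻¹ + C * (N : ℝ) ^ (-c)) := by
      have : (N : ℝ) * ((hB.toFinset.card : ℝ) * (N : ℝ)⁻¹ + C * (N : ℝ) ^ (-c)) =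
          hB.toFinset.card + C * (N * (N : ℝ) ^ (-c)) := by
        field_simp
      rw [this]
      linarith
    exact le_of_mul_le_mul_left e7 hN0
  have h2 : Filter.Tendsto (fun N : ℕ => (hB.toFinset.card : ℝ) * (N : ℝ)⁻¹ +
      C * (N : ℝ) ^ (-c)) Filter.atTop (nhds ((hB.toFinset.card : ℝ) * 0 + C * 0)) := by
    refine Filter.Tendsto.add (Filter.Tendsto.const_mul _ ?_) (Filter.Tendsto.const_mul _ ?_)
    · exact tendsto_inv_atTop_zero.comp tendsto_natCast_atTop_atTop
    · exact (tendsto_rpow_neg_atTop hc).comp tendsto_natCast_atTop_atTop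
  rw [mul_zero, mul_zero, add_zero] at h2
  have h3 : (1 : ℝ) ≤ 0 := by
    refine ge_of_tendsto h2 ?_
    filter_upwards [Filter.eventually_ge_atTop 1] with N hN
    exact h1 N hN
  linarith

end

end Pool.Agent.N470.RW
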