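import Pool.Agent.N470.RW.Gen
import Pool.Agent.N470.RW.Conv
import Pool.Agent.Y377.AO.Conn2

set_option autoImplicit false

/-! # Random words on affine varieties -/

namespace Pool.Agent.N470.RW

open MvPolynomial Pool.Agent.TH717.GO Pool.Agent.Y377.AO
open Pool.Agent.H159R3.Exp (cpt Laur)

section

variable {n r s : ℕ} {k K : Type} [Field k] [Field K] [Algebra k K] {H : Type} [Group H]

/-- the restrictions of the polynomials in `FF` to the space `K ^ r` -/
noncomputable def QA (FF : Set (MvPolynomial (Fin n) k)) (M : Matrix (Fin n) (Fin r) K)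
    (d : ℕ) : Submodule K (restrictTotalDegree (Fin r) K d) :=
  Submodule.span K {f | ∃ F ∈ FF, (f : MvPolynomial (Fin r) K) =
    pull M (MvPolynomial.map (algebraMap k K) F)}

theorem van_QA (FF : Set (MvPolynomial (Fin n) k)) (M : Matrix (Fin n) (Fin r) K)
    (d : ℕ) (hd : ∀ F ∈ FF, F.totalDegree ≤ d) (x : Fin r → K) :
    Van (QA FF M d) x ↔ ∀ F ∈ FF, aeval (M.mulVec x) F = 0 := by
  have hev : ∀ F : MvPolynomial (Fin n) k,
      eval x (pull M (MvPolynomial.map (algebraMap k K) F)) = aeval (M.mulVec x) F := by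
    intro F
    rw [eval_pull, eval_map, aeval_def]
  constructor
  · intro h F hF
    rw [← hev]
    have h1 : pull M (MvPolynomial.map (algebraMap k K) F) ∈ restrictTotalDegree (Fin r) K d := by
      rw [mem_restrictTotalDegree]
      refine (totalDegree_pull _ _).trans (le_trans ?_ (hd F hF))
      rw [totalDegree, totalDegree]
      exact Finset.sup_mono (support_map_subset _ _)
    exact h ⟨_, h1⟩ (Submodule.subset_span ⟨F, hF, rfl⟩)
  · intro h f hf
    have h1 : QA FF M d ≤ kap d x := by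
      rw [QA, Submodule.span_le]
      rintro f ⟨F, hF, hfF⟩
      show f ∈ kap d x
      rw [mem_kap, hfF, hev, h F hF]
    exact (mem_kap d x f).1 (h1 hf)

theorem excA_const [CharZero K] {FF GG : Set (MvPolynomial (Fin n) k)} (hO : OCond FF GG r)
    (M : Matrix (Fin n) (Fin r) K)
    (ρ : H →* Matrix.GeneralLinearGroup (Fin r) K) (v : Fin r → K) (d : ℕ)
    (hd : ∀ F ∈ FF, F.totalDegree ≤ d)
    (Q : Submodule K (restrictTotalDegree (Fin r) K d)) (hQ0 : QA FF M d ≤ Q)
    (hQ : letI := actn d ρ; (MulAction.orbit H Q).Finite) (g : H)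
    (hg : Van Q ((ρ g : Matrix (Fin r) (Fin r) K).mulVec v))
    (hGg : ∃ G ∈ GG, aeval (orbA M ρ v g) G ≠ 0)
    (y : H) (hy : y ∈ NN ρ) : orbA M ρ v (y * g) = orbA M ρ v g := by
  let ρ' : NN ρ →* Matrix.GeneralLinearGroup (Fin r) K := ρ.comp (NN ρ).subtype
  let v' : Fin r → K := (ρ g : Matrix (Fin r) (Fin r) K).mulVec v
  have horb : ∀ y : NN ρ, orbA M ρ' v' y = orbA M ρ v ((y : H) * g) := by
    intro y
    unfold orbA
    rw [map_mul, Units.val_mul, ← Matrix.mulVec_mulVec]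
    rfl
  have hX : OnV FF M ρ' v' := by
    intro y
    have h1 : Van Q ((ρ (y : H) : Matrix (Fin r) (Fin r) K).mulVec v') :=
      van_NN d ρ Q hQ (y : H) y.2 v' hg
    have h2 : Van (QA FF M d) ((ρ (y : H) : Matrix (Fin r) (Fin r) K).mulVec v') :=
      fun f hf => h1 f (hQ0 hf)
    exact (van_QA FF M d hd _).1 h2
  have htop : NN ρ' = ⊤ := Subgroup.closure_closure_coe_preimage (k := {h | NeatEl ρ h})
  have h1 := neat_constA hO M ρ' v' hX ⟨y, hy⟩ (by rw [htop]; trivial) 1 (by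
    rw [horb, Subgroup.coe_one, one_mul]
    exact hGg)
  rw [horb, horb, Subgroup.coe_one, one_mul, one_mul] at h1
  exact h1

/-- the exceptional points -/
noncomputable def ExcA (FF GG : Set (MvPolynomial (Fin n) k))
    (M : Matrix (Fin n) (Fin r) K) (ρ : H →* Matrix.GeneralLinearGroup (Fin r) K)
    (v : Fin r → K) (d : ℕ) : Set (Fin n → K) :=
  {P | ∃ g : H, (∃ G ∈ GG, aeval (orbA M ρ v g) G ≠ 0) ∧ P = orbA M ρ v g ∧
    ∃ Q : Submodule K (restrictTotalDegree (Fin r) K d), QA FF M d ≤ Q ∧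
      (letI := actn d ρ; (MulAction.orbit H Q).Finite) ∧
      Van Q ((ρ g : Matrix (Fin r) (Fin r) K).mulVec v)}

theorem excA_card [CharZero K] {FF GG : Set (MvPolynomial (Fin n) k)} (hO : OCond FF GG r)
    (M : Matrix (Fin n) (Fin r) K)
    (ρ : H →* Matrix.GeneralLinearGroup (Fin r) K) (hidx : (NN ρ).index ≠ 0)
    (v : Fin r → K) (d : ℕ) (hd : ∀ F ∈ FF, F.totalDegree ≤ d) :
    (ExcA FF GG M ρ v d).encard ≤ (NN ρ).index := by
  classical
  have hfin : Finite (H ⧸ NN ρ) := by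
    have : (NN ρ).FiniteIndex := ⟨hidx⟩
    infer_instance
  choose! sel hsel using fun P (hP : P ∈ ExcA FF GG M ρ v d) => hP
  have hinj : Set.InjOn (fun P => ((sel P : H) : H ⧸ NN ρ)) (ExcA FF GG M ρ v d) := by
    intro P hP P' hP' heq
    obtain ⟨hG1, hPe, Q, hQ1, hQ2, hQ3⟩ := hsel P hP
    obtain ⟨hG', hPe', -⟩ := hsel P' hP'
    have h2 : (sel P)⁻¹ * sel P' ∈ NN ρ := QuotientGroup.eq.1 heq
    have h3 : sel P' * (sel P)⁻¹ ∈ NN ρ := (NN_normal ρ).mem_comm h2
    have hk := excA_const hO M ρ v d hd Q hQ1 hQ2 (sel P) hQ3 hG1 _ h3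
    rw [inv_mul_cancel_right] at hk
    rw [hPe, hPe', hk]
  calc (ExcA FF GG M ρ v d).encard ≤ (Set.univ : Set (H ⧸ NN ρ)).encard :=
        Set.encard_le_encard_of_injOn (fun _ _ => Set.mem_univ _) hinj
    _ = ((NN ρ).index : ℕ∞) := by
        have h1 : Fintype (H ⧸ NN ρ) := Fintype.ofFinite _
        rw [Set.encard_univ, ENat.card_eq_coe_fintype_card, ← Nat.card_eq_fintype_card,
          Subgroup.index_eq_card]

/-- the coordinates `M A_{w 0} ⋯ A_{w (m - 1)} v` represented by a word -/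
def wvecA (M : Matrix (Fin n) (Fin r) K) (A : Fin s → Matrix.GeneralLinearGroup (Fin r) K)
    (v : Fin r → K) {m : ℕ} (w : Fin m → Fin s) : Fin n → K :=
  M.mulVec ((((List.ofFn fun i => A (w i)).prod : Matrix.GeneralLinearGroup (Fin r) K) :
    Matrix (Fin r) (Fin r) K).mulVec v)

/-- the words of length `m` representing zeros of `FF` which are neither zeros of `GG` nor in `E` -/
def hitsA (FF GG : Set (MvPolynomial (Fin n) k))
    (M : Matrix (Fin n) (Fin r) K)
    (A : Fin s → Matrix.GeneralLinearGroup (Fin r) K) (v : Fin r → K)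
    (E : Set (Fin n → K)) (m : ℕ) : Set (Fin m → Fin s) :=
  {w | (∀ F ∈ FF, aeval (wvecA M A v w) F = 0) ∧ (∃ G ∈ GG, aeval (wvecA M A v w) G ≠ 0) ∧
    wvecA M A v w ∉ E}

theorem main_boundA [CharZero K] {FF GG : Set (MvPolynomial (Fin n) k)} (hO : OCond FF GG r)
    (d : ℕ) (hd : ∀ F ∈ FF, F.totalDegree ≤ d) (hs : 1 ≤ s) (M : Matrix (Fin n) (Fin r) K)
    (A : Fin s → Matrix.GeneralLinearGroup (Fin r) K) (v : Fin r → K) :
    ∃ E : Set (Fin n → K), E.encard ≤ (NN (FreeGroup.lift A)).index ∧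
      ∀ N : ℕ, 1 ≤ N → (∑ m ∈ Finset.range N, ((hitsA FF GG M A v E m).ncard : ℝ) / s ^ m) / N ≤
        6 * s * (N : ℝ) ^ (-((1 / 2 : ℝ) ^ ((r + d).choose d + 2))) := by
  classical
  let ρ : FreeGroup (Fin s) →* Matrix.GeneralLinearGroup (Fin r) K := FreeGroup.lift A
  let a : Fin s → FreeGroup (Fin s) := FreeGroup.of
  let _ := actn d ρ
  refine ⟨ExcA FF GG M ρ v d, excA_card hO M ρ (NN_index_ne inferInstance ρ) v d hd, ?_⟩
  intro N hN
  have h1 := rare_sub hs A v d (QA FF M d) N hN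
  refine le_trans ?_ h1
  have hw : ∀ {m : ℕ} (w : Fin m → Fin s),
      orbA M ρ v (List.ofFn fun i => a (w i)).prod = wvecA M A v w := by
    intro m w
    unfold orbA wvecA
    rw [lift_word A w]
  have h2 : ∀ m : ℕ, ((hitsA FF GG M A v (ExcA FF GG M ρ v d) m).ncard : ℝ) / s ^ m ≤
      EE a m (ind (kap d v) (QA FF M d)) := by
    intro m
    rw [EE_words]
    refine div_le_div_of_nonneg_right ?_ (by positivity)
    rw [Set.ncard_eq_toFinset_card', Finset.card_eq_sum_ones, Nat.cast_sum]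
    refine le_trans (Finset.sum_le_sum (g := fun w : Fin m → Fin s =>
      ind (kap d v) (QA FF M d) (List.ofFn fun i => a (w i)).prod) ?_)
      (Finset.sum_le_sum_of_subset_of_nonneg (Finset.subset_univ _)
        fun w _ _ => ind_nonneg _ _ _)
    intro w hw1
    rw [Set.mem_toFinset] at hw1
    obtain ⟨hF, hGw, hE⟩ := hw1
    have h4 : UU (kap d v) (QA FF M d) (List.ofFn fun i => a (w i)).prod := by
      refine ⟨?_, ?_⟩
      · rw [le_smul_kap, van_QA FF M d hd]
        intro F hF1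
        have := hF F hF1
        rw [← hw w] at this
        exact this
      · rintro ⟨Q, hQ1, hQ2, hQ3⟩
        rw [le_smul_kap] at hQ3
        apply hE
        exact ⟨(List.ofFn fun i => a (w i)).prod, by rw [hw]; exact hGw, (hw w).symm, Q, hQ1, hQ2,
          hQ3⟩
    unfold ind
    rw [if_pos h4]
    norm_num
  unfold AA
  exact div_le_div_of_nonneg_right (Finset.sum_le_sum fun m _ => h2 m) (by positivity)

/-- on a nonconstant Laurent curve over a number field the powers of a matrix avoid every finite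
set -/
theorem inf_hits (FF GG : Set (MvPolynomial (Fin n) k))
    {L : Type} [Field L] [NumberField L] [Algebra k L] {D : ℕ} (e : ℕ)
    (κ : Fin n × Fin (D + 1) → L)
    (hF : ∀ F ∈ FF, ∀ t, t ≠ 0 → MvPolynomial.aeval (cpt e κ t) F = 0)
    (hG : ∃ G ∈ GG, MvPolynomial.aeval (cpt e κ 1) G ≠ 0) (k1 : ℕ) (j1 : Fin n)
    (hk : cpt e κ (2 ^ k1) j1 ≠ cpt e κ 1 j1) (E : Set (Fin n → L)) (hE : E.Finite) :
    {m : ℕ | ¬ ∀ u : Fin m → Fin 1, u ∈ hitsA FF GG (fun i j => κ (i, j))
      (fun _ : Fin 1 => diaE L (D + 1) e (Multiplicative.ofAdd 1)) (fun _ => 1) E m}.Finite := by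
  classical
  have h20 : (2 : L) ≠ 0 := two_ne_zero
  have hv := Pool.Agent.H159R3.Exp.cpt_laur e κ
  have hwv : ∀ (m : ℕ) (u : Fin m → Fin 1), wvecA (fun i j => κ (i, j))
      (fun _ : Fin 1 => diaE L (D + 1) e (Multiplicative.ofAdd 1)) (fun _ => 1) u =
      cpt e κ (2 ^ m) := by
    intro m u
    have e1 := orbA_diaE e κ ((Multiplicative.ofAdd (1 : ℤ)) ^ m)
    have e2 : Multiplicative.toAdd ((Multiplicative.ofAdd (1 : ℤ)) ^ m) = (m : ℤ) := by
      rw [toAdd_pow]
      simp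
    rw [e2, zpow_natCast] at e1
    rw [← e1]
    unfold wvecA orbA
    rw [List.ofFn_const, List.prod_replicate, ← map_pow]
  obtain ⟨G, hGG, hGne⟩ := hG
  have hG0 : {m : ℕ | MvPolynomial.aeval (cpt e κ (2 ^ m)) G = 0}.Finite :=
    (Laur.eval₂ (algebraMap k L) (cpt e κ) hv G).finite_zeros ⟨1, one_ne_zero, hGne⟩
  have hfib : ∀ x : Fin n → L, {m : ℕ | cpt e κ (2 ^ m) = x}.Finite := by
    intro x
    have h1 : Laur fun t => cpt e κ t j1 + (-(x j1)) := (hv j1).add (Laur.const _)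
    refine (h1.finite_zeros ?_).subset ?_
    · by_contra hcon
      push Not at hcon
      have h2 := hcon (2 ^ k1) (pow_ne_zero _ h20)
      have h3 := hcon 1 one_ne_zero
      apply hk
      linear_combination h2 - h3
    · intro m hm
      have h2 : cpt e κ (2 ^ m) = x := hm
      show cpt e κ (2 ^ m) j1 + (-(x j1)) = 0
      rw [h2, add_neg_cancel]
  refine (hG0.union (hE.biUnion fun x _ => hfib x)).subset ?_
  intro m hm
  by_cases h : MvPolynomial.aeval (cpt e κ (2 ^ m)) G = 0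
  · exact Or.inl h
  · right
    by_contra hcon
    apply hm
    intro u
    refine ⟨?_, ⟨G, hGG, ?_⟩, ?_⟩
    · intro F hFF
      rw [hwv]
      exact hF F hFF _ (pow_ne_zero _ h20)
    · rw [hwv]
      exact h
    · rw [hwv]
      intro hmem
      exact hcon (Set.mem_biUnion hmem rfl)

end

end Pool.Agent.N470.RW
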