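import Pool.Agent.N470.RW.Gen
import Pool.Agent.N470.RW.Conv
import Pool.Agent.TH717.GO.Alg

set_option autoImplicit false

/-! # On a curve the powers of a matrix hit every finite set rarely -/

namespace Pool.Agent.N470.RW

open Pool.Agent.TH717.GO Pool.Agent.H533R3.SL

section

variable {n : ℕ}

theorem curve_hits_gen {k : Type} [Field k] (FF : Set (MvPolynomial (Fin (n + 1)) k))
    (G : MvPolynomial (Fin (n + 1)) k) {K : Type} [Field K] [CharZero K] [Algebra k K] {N : ℕ}
    (w : Fin N → Fin (n + 1) → K)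
    (h1 : ∀ F ∈ FF, MvPolynomial.aeval (cur w (fun j => (j : ℕ))) F = 0)
    (h2 : ∃ i j, cur w (fun j => (j : ℕ)) i * Polynomial.C ((cur w (fun j => (j : ℕ)) j).eval 1) ≠
        cur w (fun j => (j : ℕ)) j * Polynomial.C ((cur w (fun j => (j : ℕ)) i).eval 1))
    (h3 : MvPolynomial.aeval (fun i => (cur w (fun j => (j : ℕ)) i).eval 1) G ≠ 0)
    (E : Set (Projectivization K (Fin (n + 1) → K))) (hE : E.Finite) :
    {m : ℕ | ¬ ∀ u : Fin m → Fin 1, u ∈ hitsG FF G (M0 w)
      (fun _ : Fin 1 => dia K N (Multiplicative.ofAdd 1)) (fun _ => 1) E m}.Finite := by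
  classical
  let q : Fin (n + 1) → Polynomial K := cur w (fun j => (j : ℕ))
  have hevG : ∀ (F : MvPolynomial (Fin (n + 1)) k) (t : K), (MvPolynomial.aeval q F).eval t =
      MvPolynomial.aeval (fun i => (q i).eval t) F := by
    intro F t
    exact MvPolynomial.comp_aeval_apply (R := k) q
      ((Polynomial.aeval t : Polynomial K →ₐ[K] K).restrictScalars k) F
  have horb : ∀ m : Multiplicative ℤ, orb (M0 w) (dia K N) (fun _ => 1) m =
      fun i => (q i).eval ((2 : K) ^ (Multiplicative.toAdd m)) := by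
    intro m
    funext i
    show ∑ j, M0 w i j * ((Matrix.diagonal fun j : Fin N =>
      ((2 : K) ^ (Multiplicative.toAdd m)) ^ (j : ℕ)).mulVec fun _ => 1) j = _
    show _ = (cur w (fun j : Fin N => (j : ℕ)) i).eval _
    unfold cur
    rw [Polynomial.eval_finsetSum]
    refine Finset.sum_congr rfl fun j _ => ?_
    rw [Matrix.mulVec_diagonal, Polynomial.eval_mul, Polynomial.eval_C, Polynomial.eval_pow,
      Polynomial.eval_X, mul_one]
    rfl
  have hwv : ∀ (m : ℕ) (u : Fin m → Fin 1), wvec (M0 w)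
      (fun _ : Fin 1 => dia K N (Multiplicative.ofAdd 1)) (fun _ => 1) u =
      fun i => (q i).eval ((2 : K) ^ m) := by
    intro m u
    have e1 := horb ((Multiplicative.ofAdd (1 : ℤ)) ^ m)
    have e2 : Multiplicative.toAdd ((Multiplicative.ofAdd (1 : ℤ)) ^ m) = (m : ℤ) := by
      rw [toAdd_pow]
      simp
    rw [e2, zpow_natCast] at e1
    rw [← e1]
    unfold wvec orb
    rw [List.ofFn_const, List.prod_replicate, ← map_pow]
  have hG0 : MvPolynomial.aeval q G ≠ 0 := by
    intro h
    apply h3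
    have := hevG G 1
    rw [h, Polynomial.eval_zero] at this
    exact this.symm
  obtain ⟨i1, i2, a, b, hab⟩ := Pool.Agent.TH409.SH.nonconst_of q h2
  have hq0 : q i1 ≠ 0 ∨ q i2 ≠ 0 := by
    by_contra h
    push Not at h
    apply hab
    rw [h.1, h.2]
  have h2inj : Function.Injective (fun m : ℕ => (2 : K) ^ m) := by
    intro m m' h
    have h4 : ((2 ^ m : ℕ) : K) = ((2 ^ m' : ℕ) : K) := by push_cast; exact h
    exact Nat.pow_right_injective (le_refl 2) (Nat.cast_injective h4)
  -- all but finitely many powers of two are good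
  let Q : Polynomial K := MvPolynomial.aeval q G * (if q i1 = 0 then q i2 else q i1)
  have hQ : Q ≠ 0 := by
    refine mul_ne_zero hG0 ?_
    split_ifs with h
    · rcases hq0 with h' | h'
      · exact absurd h h'
      · exact h'
    · exact h
  let good : Set ℕ := {m | Q.eval ((2 : K) ^ m) ≠ 0}
  have hgood : goodᶜ.Finite := by
    refine Set.Finite.of_finite_image (f := fun m : ℕ => (2 : K) ^ m) ?_ h2inj.injOn
    refine (Q.roots.toFinset.finite_toSet).subset ?_
    rintro _ ⟨m, hm, rfl⟩
    have : Q.eval ((2 : K) ^ m) = 0 := by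
      by_contra h
      exact hm h
    simpa [hQ] using this
  have hgne : ∀ m ∈ good, (fun i => (q i).eval ((2 : K) ^ m)) ≠ 0 := by
    intro m hm h0
    apply hm
    show (MvPolynomial.aeval q G * (if q i1 = 0 then q i2 else q i1)).eval ((2 : K) ^ m) = 0
    rw [Polynomial.eval_mul]
    have h5 : ∀ i, (q i).eval ((2 : K) ^ m) = 0 := fun i => congrFun h0 i
    split_ifs
    · rw [h5, mul_zero]
    · rw [h5, mul_zero]
  have hgG : ∀ m ∈ good, MvPolynomial.aeval (fun i => (q i).eval ((2 : K) ^ m)) G ≠ 0 := by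
    intro m hm h0
    apply hm
    show (MvPolynomial.aeval q G * (if q i1 = 0 then q i2 else q i1)).eval ((2 : K) ^ m) = 0
    rw [Polynomial.eval_mul, hevG, h0, zero_mul]
  let pt : ℕ → Projectivization K (Fin (n + 1) → K) := fun m =>
    if h : (fun i => (q i).eval ((2 : K) ^ m)) ≠ 0 then Projectivization.mk K _ h
    else Projectivization.mk K (fun _ => 1) (fun h => one_ne_zero (congrFun h 0))
  have hfinP : ∀ P, (good ∩ pt ⁻¹' {P}).Finite := by
    intro P
    by_contra hP'
    have hP : (good ∩ pt ⁻¹' {P}).Infinite := hP'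
    obtain ⟨m0, hm0, hm0P⟩ := hP.nonempty
    have hrel : ∀ i j, q i * Polynomial.C ((q j).eval ((2 : K) ^ m0)) =
        q j * Polynomial.C ((q i).eval ((2 : K) ^ m0)) := by
      intro i j
      rw [← sub_eq_zero]
      refine Polynomial.eq_zero_of_infinite_isRoot _ ?_
      refine Set.Infinite.mono ?_ (hP.image h2inj.injOn)
      rintro _ ⟨m, ⟨hm, hmP⟩, rfl⟩
      have h8 : pt m = pt m0 := by
        rw [show pt m = P from hmP, show pt m0 = P from hm0P]
      simp only [pt, dif_pos (hgne m hm), dif_pos (hgne m0 hm0)] at h8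
      rw [Projectivization.mk_eq_mk_iff'] at h8
      obtain ⟨c, hc⟩ := h8
      have hci : ∀ i, c * (q i).eval ((2 : K) ^ m0) = (q i).eval ((2 : K) ^ m) := fun i =>
        congrFun hc i
      show (q i * Polynomial.C ((q j).eval ((2 : K) ^ m0)) -
        q j * Polynomial.C ((q i).eval ((2 : K) ^ m0))).eval ((2 : K) ^ m) = 0
      rw [Polynomial.eval_sub, Polynomial.eval_mul, Polynomial.eval_mul, Polynomial.eval_C,
        Polynomial.eval_C, ← hci i, ← hci j]
      ring
    obtain ⟨i0, hi0⟩ : ∃ i, (q i).eval ((2 : K) ^ m0) ≠ 0 := by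
      by_contra h
      push Not at h
      exact hgne m0 hm0 (funext h)
    apply hab
    have e1 := congrArg (Polynomial.eval a) (hrel i1 i0)
    have e2 := congrArg (Polynomial.eval b) (hrel i2 i0)
    have e3 := congrArg (Polynomial.eval a) (hrel i2 i0)
    have e4 := congrArg (Polynomial.eval b) (hrel i1 i0)
    simp only [Polynomial.eval_mul, Polynomial.eval_C] at e1 e2 e3 e4
    have hne2 : (q i0).eval ((2 : K) ^ m0) * (q i0).eval ((2 : K) ^ m0) ≠ 0 := mul_ne_zero hi0 hi0
    apply mul_right_cancel₀ hne2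
    calc (q i1).eval a * (q i2).eval b * ((q i0).eval ((2 : K) ^ m0) * (q i0).eval ((2 : K) ^ m0))
        = ((q i1).eval a * (q i0).eval ((2 : K) ^ m0)) *
          ((q i2).eval b * (q i0).eval ((2 : K) ^ m0)) := by ring
      _ = ((q i0).eval a * (q i1).eval ((2 : K) ^ m0)) *
          ((q i0).eval b * (q i2).eval ((2 : K) ^ m0)) := by rw [e1, e2]
      _ = ((q i0).eval a * (q i2).eval ((2 : K) ^ m0)) *
          ((q i0).eval b * (q i1).eval ((2 : K) ^ m0)) := by ring
      _ = ((q i2).eval a * (q i0).eval ((2 : K) ^ m0)) *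
          ((q i1).eval b * (q i0).eval ((2 : K) ^ m0)) := by rw [e3, e4]
      _ = (q i2).eval a * (q i1).eval b *
          ((q i0).eval ((2 : K) ^ m0) * (q i0).eval ((2 : K) ^ m0)) := by ring
  refine (hgood.union (hE.biUnion fun P _ => hfinP P)).subset ?_
  intro m hm
  by_cases hg : m ∈ good
  · right
    by_contra hcon
    apply hm
    intro u
    refine ⟨?_, ?_, ?_⟩
    · intro F hF
      rw [hwv, ← hevG]
      show (MvPolynomial.aeval (cur w (fun j => (j : ℕ))) F).eval _ = 0
      rw [h1 F hF, Polynomial.eval_zero]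
    · rw [hwv]
      exact hgG m hg
    · have hne : wvec (M0 w) (fun _ : Fin 1 => dia K N (Multiplicative.ofAdd 1)) (fun _ => 1) u ≠ 0 := by
        rw [hwv]
        exact hgne m hg
      refine ⟨hne, fun hmem => hcon ?_⟩
      refine Set.mem_biUnion hmem ⟨hg, ?_⟩
      show pt m = _
      simp only [pt, dif_pos (hgne m hg)]
      rw [Projectivization.mk_eq_mk_iff']
      exact ⟨1, by rw [one_smul, hwv]⟩
  · left
    exact hg

/-- on a uniruled variety the powers of one matrix avoid every hypersurface and every finite set -/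
theorem converse_hits {k : Type} [Field k] [CharZero k]
    (FF : Finset (MvPolynomial (Fin (n + 1)) k))
    (hu : Uniruled (Ideal.span (FF : Set (MvPolynomial (Fin (n + 1)) k)))) :
    ∃ r : ℕ, ∀ G : MvPolynomial (Fin (n + 1)) k, (∃ e, G.IsHomogeneous e) →
      G ∉ Ideal.span (FF : Set (MvPolynomial (Fin (n + 1)) k)) →
      ∃ (K : Type) (_ : Field K) (_ : Algebra k K) (_ : Module.Finite k K)
        (A : Matrix.GeneralLinearGroup (Fin r) K)
        (M : Matrix (Fin (n + 1)) (Fin r) K) (v : Fin r → K),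
        ∀ E : Set (Projectivization K (Fin (n + 1) → K)), E.Finite →
          {m : ℕ | ¬ ∀ u : Fin m → Fin 1, u ∈ hitsG (FF : Set (MvPolynomial (Fin (n + 1)) k)) G M
            (fun _ : Fin 1 => A) v E m}.Finite := by
  classical
  obtain ⟨L, iL, iA, p, hp1, hp2, hp3⟩ := hu
  set N : ℕ := Finset.univ.sup (fun i => (p i).natDegree) + 1 with hN
  have hNc : ∀ i m, N ≤ m → (p i).coeff m = 0 := by
    intro i m hm
    apply Polynomial.coeff_eq_zero_of_natDegree_lt
    have := Finset.le_sup (f := fun i => (p i).natDegree) (Finset.mem_univ i)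
    omega
  refine ⟨N, ?_⟩
  intro G hG1 hG2
  obtain ⟨K, iK, iAK, iF, w, h1, h2, h3⟩ := specialise_fin k L p
    (FF : Set (MvPolynomial (Fin (n + 1)) k)) (by
      intro F hF
      exact hp1 F (Ideal.subset_span hF)) N hNc hp3 G (hp2 G hG1 hG2)
  have hK0 : CharZero K := charZero_of_injective_algebraMap (FaithfulSMul.algebraMap_injective k K)
  exact ⟨K, iK, iAK, iF, dia K N (Multiplicative.ofAdd 1), M0 w, fun _ => 1,
    fun E hE => curve_hits_gen _ G w h1 h2 h3 E hE⟩

end

end Pool.Agent.N470.RW
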