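import Mathlib
import Pool.Agent.TH717.GO.NS

set_option autoImplicit false

/-! # Polynomials along the powers of a neat element: vanishing at the multiples of `m` -/

namespace Pool.Agent.N470.RW

open Polynomial Pool.Agent.TH717.GO Pool.Agent.H533R3.SL

/-- an exponential polynomial with torsion-free roots vanishing at the multiples of `m` is zero -/
theorem ap_zero {L : Type} [Field L] [CharZero L] (Λ : Subgroup Lˣ)
    (htf : ∀ u : Λ, ∀ m : ℕ, 0 < m → u ^ m = 1 → u = 1) (z : EP Λ) (m : ℕ) (hm : 0 < m)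
    (h : ∀ j : ℕ, ev Λ z (m * j) = 0) : z = 0 := by
  classical
  have hinj : Function.Injective (fun u : Λ => u ^ m) := by
    intro u v huv
    have h1 : (u / v) ^ m = 1 := by
      rw [div_pow, div_eq_one]
      exact huv
    exact div_eq_one.1 (htf _ m hm h1)
  let z' : EP Λ := ∑ μ ∈ z.coeff.support,
    MonoidAlgebra.single (μ ^ m) ((z.coeff μ).comp (C (m : L) * X))
  have h1 : z' = 0 := by
    apply ev_injective Λ
    rw [map_zero]
    funext j
    have h2 := h j
    rw [ev_eq_sum, Finset.sum_apply] at h2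
    show ev Λ z' j = 0
    rw [map_sum, Finset.sum_apply, ← h2]
    refine Finset.sum_congr rfl fun μ _ => ?_
    rw [ev_single]
    congr 1
    · rw [eval_comp, eval_mul, eval_C, eval_X]
      push_cast
      rfl
    · rw [Subgroup.coe_pow, Units.val_pow_eq_pow_val, ← pow_mul]
  rw [← MonoidAlgebra.coeff_eq_zero]
  ext1 μ
  by_contra hne
  have hμ : μ ∈ z.coeff.support := Finsupp.mem_support_iff.2 hne
  have h3 : z'.coeff (μ ^ m) = (z.coeff μ).comp (C (m : L) * X) := by
    show (∑ ν ∈ z.coeff.support,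
      MonoidAlgebra.single (ν ^ m) ((z.coeff ν).comp (C (m : L) * X)) : EP Λ).coeff (μ ^ m) = _
    rw [MonoidAlgebra.coeff_sum, Finsupp.finsetSum_apply,
      Finset.sum_eq_single_of_mem μ hμ]
    · rw [MonoidAlgebra.coeff_single, Finsupp.single_eq_same]
    · intro ν _ hνμ
      rw [MonoidAlgebra.coeff_single, Finsupp.single_apply, if_neg]
      exact fun h4 => hνμ (hinj h4)
  rw [h1] at h3
  have h4 : (z.coeff μ).comp (C (m : L) * X) = 0 := h3.symm
  apply hne
  have hm0 : (m : L) ≠ 0 := Nat.cast_ne_zero.2 hm.ne'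
  have h5 : ((z.coeff μ).comp (C (m : L) * X)).comp (C ((m : L)⁻¹) * X) = z.coeff μ := by
    rw [comp_assoc, mul_comp, C_comp, X_comp, ← mul_assoc, ← C_mul, mul_inv_cancel₀ hm0, C_1,
      one_mul, comp_X]
  rw [← h5, h4, zero_comp]
  rfl

/-- polynomial functions along the powers of a linear map with torsion-free eigenvalues -/
theorem poly_seq {L : Type} [Field L] [IsAlgClosed L] [CharZero L] {r : ℕ}
    (f : Module.End L (Fin r → L)) (U : Subgroup Lˣ)
    (hU : ∀ u ∈ U, ∀ m : ℕ, 0 < m → u ^ m = 1 → u = 1)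
    (hfU : ∀ μ : L, f.HasEigenvalue μ → ∃ u ∈ U, (u : L) = μ)
    (F : MvPolynomial (Fin r) L) (v : Fin r → L) (m : ℕ) (hm : 0 < m)
    (h : ∀ j : ℕ, MvPolynomial.eval ((f ^ (m * j)) v) F = 0) (j : ℕ) :
    MvPolynomial.eval ((f ^ j) v) F = 0 := by
  classical
  let E : Set Lˣ := {u | f.HasEigenvalue (u : L)}
  let Λ : Subgroup Lˣ := Subgroup.closure E
  have hΛU : Λ ≤ U := by
    rw [Subgroup.closure_le]
    intro u hu
    obtain ⟨u', hu', h⟩ := hfU (u : L) hu
    rwa [← Units.ext h]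
  have hΛ : ∀ μ : L, f.HasEigenvalue μ → ∃ ν : Λ, ((ν : Lˣ) : L) = μ := by
    intro μ hμ
    obtain ⟨u, hu, rfl⟩ := hfU μ hμ
    exact ⟨⟨u, Subgroup.subset_closure hμ⟩, rfl⟩
  obtain ⟨S, -, hS2⟩ := seq_rep f Λ hΛ
  have hrep : ∀ i : Fin r, ∃ a : Λ → Polynomial L, (∀ μ ∈ S, (a μ).degree < r) ∧
      ∀ m : ℕ, ((f ^ m) v) i = ∑ μ ∈ S, (a μ).eval (m : L) * ((μ : Lˣ) : L) ^ m := fun i =>
    hS2 (LinearMap.proj i) v
  choose a _ hae using hrep
  let z : Fin r → EP Λ := fun i => mk Λ S (a i)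
  let ψ : L →+* EP Λ := MonoidAlgebra.singleOneRingHom.comp (C : L →+* Polynomial L)
  let Z : EP Λ := MvPolynomial.eval₂ ψ z F
  have hψ : ∀ (c : L) (m : ℕ), ev Λ (ψ c) m = c := by
    intro c m
    show ev Λ (MonoidAlgebra.single 1 (C c)) m = c
    rw [ev_single, eval_C]
    simp
  have hZ : ∀ m : ℕ, ev Λ Z m = MvPolynomial.eval ((f ^ m) v) F := by
    intro m
    let e : EP Λ →+* L := (Pi.evalRingHom (fun _ : ℕ => L) m).comp (ev Λ)
    have h1 : ev Λ Z m = e Z := rfl
    rw [h1]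
    show e (MvPolynomial.eval₂ ψ z F) = _
    rw [MvPolynomial.hom_eval₂]
    have h2 : e.comp ψ = RingHom.id L := by
      ext c
      exact hψ c m
    rw [h2]
    have h3 : (fun i => e (z i)) = (f ^ m) v := by
      funext i
      rw [hae i m]
      exact ev_mk Λ S (a i) m
    rw [h3]
    rfl
  have h0 : Z = 0 := by
    refine ap_zero Λ ?_ Z m hm fun j => ?_
    · intro u n hn hu
      have h1 := hU u (hΛU u.2) n hn (by
        have := congrArg (Subtype.val : Λ → Lˣ) hu
        simpa using this)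
      exact Subtype.ext h1
    · rw [hZ, h j]
  rw [← hZ, h0, map_zero]
  rfl

variable {r : ℕ} {K : Type} [Field K] [CharZero K] {H : Type} [Group H]

/-- polynomial functions along the powers of a neat element -/
theorem neat_seq (ρ : H →* Matrix.GeneralLinearGroup (Fin r) K) (h : H) (hh : NeatEl ρ h)
    (F : MvPolynomial (Fin r) K) (x : Fin r → K) (m : ℕ) (hm : 0 < m)
    (h0 : ∀ j : ℕ, MvPolynomial.eval
      ((ρ (h ^ (m * j)) : Matrix (Fin r) (Fin r) K).mulVec x) F = 0) (j : ℕ) :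
    MvPolynomial.eval ((ρ (h ^ j) : Matrix (Fin r) (Fin r) K).mulVec x) F = 0 := by
  classical
  obtain ⟨U, hU, heig⟩ := hh
  let L := AlgebraicClosure K
  let φ : K →+* L := algebraMap K L
  have hφ : Function.Injective φ := (algebraMap K L).injective
  have : CharZero L := charZero_of_injective_algebraMap hφ
  let f : Module.End L (Fin r → L) :=
    Matrix.toLinAlgEquiv' ((ρ h : Matrix (Fin r) (Fin r) K).map φ)
  have hf : ∀ m : ℕ, (f ^ m) (φ ∘ x) =
      φ ∘ ((ρ (h ^ m) : Matrix (Fin r) (Fin r) K).mulVec x) := by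
    intro m
    show ((Matrix.toLinAlgEquiv' ((ρ h : Matrix (Fin r) (Fin r) K).map φ)) ^ m) (φ ∘ x) = _
    rw [← map_pow, Matrix.toLinAlgEquiv'_apply]
    have h1 : ((ρ h : Matrix (Fin r) (Fin r) K).map φ) ^ m =
        ((ρ (h ^ m) : Matrix (Fin r) (Fin r) K)).map φ := by
      have h2 : ((ρ h : Matrix (Fin r) (Fin r) K).map φ) =
          φ.mapMatrix (ρ h : Matrix (Fin r) (Fin r) K) := rfl
      rw [h2, ← map_pow, map_pow ρ, Units.val_pow_eq_pow_val]
      rfl
    rw [h1]
    funext i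
    exact (RingHom.map_mulVec φ _ x i).symm
  have hev : ∀ y : Fin r → K, MvPolynomial.eval (φ ∘ y) (MvPolynomial.map φ F) =
      φ (MvPolynomial.eval y F) := by
    intro y
    rw [MvPolynomial.eval_map, MvPolynomial.eval₂_comp]
  have h1 := poly_seq f U hU (by
      intro μ hμ
      obtain ⟨w, hw⟩ := hμ.exists_hasEigenvector
      refine heig μ w hw.2 ?_
      have := hw.apply_eq_smul
      rwa [Matrix.toLinAlgEquiv'_apply] at this) (MvPolynomial.map φ F) (φ ∘ x) m hm (by
      intro j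
      rw [hf, hev, h0, map_zero]) j
  rw [hf, hev] at h1
  exact hφ (by rw [h1, map_zero])

end Pool.Agent.N470.RW
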