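import Pool.Agent.N470.RW.Poly
import Pool.Agent.N470.RW.Exp
import Pool.Agent.N470.RW.Abs
import Pool.Agent.TH717.GO.UC

set_option autoImplicit false

/-! # The exceptional points of random words -/

namespace Pool.Agent.N470.RW

open MvPolynomial Pool.Agent.TH717.GO

section

variable {r : ℕ} {K : Type} [Field K] {H : Type} [Group H]

/-- the polynomials in `Q` vanish at `x` -/
def Van {d : ℕ} (Q : Submodule K (restrictTotalDegree (Fin r) K d)) (x : Fin r → K) : Prop :=
  ∀ f ∈ Q, eval x (f : MvPolynomial (Fin r) K) = 0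

/-- the polynomials of degree at most `d` vanishing at `v` -/
noncomputable def kap (d : ℕ) (v : Fin r → K) :
    Submodule K (restrictTotalDegree (Fin r) K d) :=
  LinearMap.ker ((aeval v : MvPolynomial (Fin r) K →ₐ[K] K).toLinearMap.comp
    (Submodule.subtype (restrictTotalDegree (Fin r) K d)))

theorem mem_kap (d : ℕ) (v : Fin r → K) (f : restrictTotalDegree (Fin r) K d) :
    f ∈ kap d v ↔ eval v (f : MvPolynomial (Fin r) K) = 0 := by
  unfold kap
  rw [LinearMap.mem_ker]
  exact Iff.rfl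

theorem act_mono (d : ℕ) (ρ : H →* Matrix.GeneralLinearGroup (Fin r) K) :
    letI := actn d ρ
    ∀ (g : H) (a b : Submodule K (restrictTotalDegree (Fin r) K d)), a ≤ b → g • a ≤ g • b := by
  intro g a b h
  exact Submodule.map_mono h

theorem le_smul_kap (d : ℕ) (ρ : H →* Matrix.GeneralLinearGroup (Fin r) K) (v : Fin r → K)
    (g : H) (Q : Submodule K (restrictTotalDegree (Fin r) K d)) :
    letI := actn d ρ
    Q ≤ g • kap d v ↔ Van Q ((ρ g : Matrix (Fin r) (Fin r) K).mulVec v) := by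
  let _ := actn d ρ
  rw [le_smul_iff (act_mono d ρ)]
  constructor
  · intro h f hf
    have h1 : pullV d (ρ g⁻¹⁻¹ : Matrix (Fin r) (Fin r) K) f ∈ g⁻¹ • Q :=
      Submodule.mem_map_of_mem hf
    have h2 := (mem_kap d v _).1 (h h1)
    rw [pullV_coe, inv_inv, eval_pull] at h2
    exact h2
  · rintro h _ ⟨f, hf, rfl⟩
    rw [mem_kap, pullV_coe, inv_inv, eval_pull]
    exact h f hf

/-- a subspace with a finite orbit vanishing at `x` vanishes at `ρ(h) x` for neat `h` -/
theorem van_neat [CharZero K] (d : ℕ) (ρ : H →* Matrix.GeneralLinearGroup (Fin r) K)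
    (Q : Submodule K (restrictTotalDegree (Fin r) K d))
    (hQ : letI := actn d ρ; (MulAction.orbit H Q).Finite) (h : H) (hh : NeatEl ρ h)
    (x : Fin r → K) (hx : Van Q x) : Van Q ((ρ h : Matrix (Fin r) (Fin r) K).mulVec x) := by
  let _ := actn d ρ
  obtain ⟨i, j, hij, heq⟩ : ∃ i j : ℕ, i < j ∧ h ^ i • Q = h ^ j • Q := by
    have hni : ¬ Function.Injective (fun m : ℕ => h ^ m • Q) := by
      intro hinj
      have h1 := Set.infinite_range_of_injective hinj
      apply h1
      refine hQ.subset ?_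
      rintro _ ⟨m, rfl⟩
      exact ⟨h ^ m, rfl⟩
    unfold Function.Injective at hni
    push Not at hni
    obtain ⟨i, j, h1, h2⟩ := hni
    rcases lt_or_gt_of_ne h2 with h3 | h3
    · exact ⟨i, j, h3, h1⟩
    · exact ⟨j, i, h3, h1.symm⟩
  obtain ⟨m, rfl⟩ := Nat.exists_eq_add_of_lt hij
  set p := m + 1 with hp
  have hp' : i + m + 1 = i + p := by omega
  rw [hp', pow_add, mul_smul] at heq
  have h1 : h ^ p • Q = Q := (MulAction.injective (h ^ i) heq).symm
  have h2 : ∀ t : ℕ, h ^ (p * t) • Q = Q := by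
    intro t
    induction t with
    | zero => rw [mul_zero, pow_zero, one_smul]
    | succ t ih => rw [mul_add, mul_one, pow_add, mul_smul, h1, ih]
  intro f hf
  have h3 := neat_seq ρ h hh (f : MvPolynomial (Fin r) K) x p (by omega) (by
    intro t
    have h4 : (h ^ (p * t))⁻¹ • Q = Q := by
      conv_lhs => rw [← h2 t]
      rw [inv_smul_smul]
    have h5 : pullV d (ρ (h ^ (p * t))⁻¹⁻¹ : Matrix (Fin r) (Fin r) K) f ∈
        (h ^ (p * t))⁻¹ • Q := Submodule.mem_map_of_mem hf
    rw [h4] at h5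
    have h6 := hx _ h5
    rw [pullV_coe, inv_inv, eval_pull] at h6
    exact h6) 1
  rw [pow_one] at h3
  exact h3

/-- the same for the group generated by the neat elements -/
theorem van_NN [CharZero K] (d : ℕ) (ρ : H →* Matrix.GeneralLinearGroup (Fin r) K)
    (Q : Submodule K (restrictTotalDegree (Fin r) K d))
    (hQ : letI := actn d ρ; (MulAction.orbit H Q).Finite) (y : H) (hy : y ∈ NN ρ)
    (x : Fin r → K) (hx : Van Q x) : Van Q ((ρ y : Matrix (Fin r) (Fin r) K).mulVec x) := by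
  have step : ∀ h y : H, NeatEl ρ h → Van Q ((ρ y : Matrix (Fin r) (Fin r) K).mulVec x) →
      Van Q ((ρ (h * y) : Matrix (Fin r) (Fin r) K).mulVec x) := by
    intro h y hh hy
    rw [map_mul, Units.val_mul, ← Matrix.mulVec_mulVec]
    exact van_neat d ρ Q hQ h hh _ hy
  refine Subgroup.closure_induction_left (p := fun y _ =>
    Van Q ((ρ y : Matrix (Fin r) (Fin r) K).mulVec x)) ?_ ?_ ?_ hy
  · rw [map_one, Units.val_one, Matrix.one_mulVec]
    exact hx
  · intro h hh y _ hy
    exact step h y hh hy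
  · intro h hh y _ hy
    exact step h⁻¹ y hh.inv hy

variable {n : ℕ} {k : Type} [Field k] [Algebra k K]

/-- the restrictions of the forms in `FF` to the space `K ^ r` -/
noncomputable def Q0 (FF : Set (MvPolynomial (Fin (n + 1)) k)) (M : Matrix (Fin (n + 1)) (Fin r) K)
    (d : ℕ) : Submodule K (restrictTotalDegree (Fin r) K d) :=
  Submodule.span K {f | ∃ F ∈ FF, (f : MvPolynomial (Fin r) K) =
    pull M (MvPolynomial.map (algebraMap k K) F)}

theorem van_Q0 (FF : Set (MvPolynomial (Fin (n + 1)) k)) (M : Matrix (Fin (n + 1)) (Fin r) K)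
    (d : ℕ) (hd : ∀ F ∈ FF, F.totalDegree ≤ d) (x : Fin r → K) :
    Van (Q0 FF M d) x ↔ ∀ F ∈ FF, aeval (M.mulVec x) F = 0 := by
  have hev : ∀ F : MvPolynomial (Fin (n + 1)) k,
      eval x (pull M (MvPolynomial.map (algebraMap k K) F)) = aeval (M.mulVec x) F := by
    intro F
    rw [eval_pull, eval_map, aeval_def]
  constructor
  · intro h F hF
    rw [← hev]
    have h1 : pull M (MvPolynomial.map (algebraMap k K) F) ∈ restrictTotalDegree (Fin r) K d := by
      rw [mem_restrictTotalDegree]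
      refine (totalDegree_pull _ _).trans (le_trans ?_ (hd F hF))
      rw [totalDegree, totalDegree]
      exact Finset.sup_mono (support_map_subset _ _)
    exact h ⟨_, h1⟩ (Submodule.subset_span ⟨F, hF, rfl⟩)
  · intro h f hf
    have h1 : Q0 FF M d ≤ kap d x := by
      rw [Q0, Submodule.span_le]
      rintro f ⟨F, hF, hfF⟩
      show f ∈ kap d x
      rw [mem_kap, hfF, hev, h F hF]
    exact (mem_kap d x f).1 (h1 hf)

/-- the projective point of an exceptional element depends only on its coset -/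
theorem exc_const [CharZero k] [CharZero K] (FF : Set (MvPolynomial (Fin (n + 1)) k))
    (hhom : ∀ F ∈ FF, ∃ e, F.IsHomogeneous e)
    (G : MvPolynomial (Fin (n + 1)) k) (hGh : ∃ e, G.IsHomogeneous e)
    (hG : CurCond FF G (r * r)) (M : Matrix (Fin (n + 1)) (Fin r) K)
    (ρ : H →* Matrix.GeneralLinearGroup (Fin r) K) (v : Fin r → K) (d : ℕ)
    (hd : ∀ F ∈ FF, F.totalDegree ≤ d)
    (Q : Submodule K (restrictTotalDegree (Fin r) K d)) (hQ0 : Q0 FF M d ≤ Q)
    (hQ : letI := actn d ρ; (MulAction.orbit H Q).Finite) (g : H)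
    (hg : Van Q ((ρ g : Matrix (Fin r) (Fin r) K).mulVec v)) (hGg : aeval (orb M ρ v g) G ≠ 0)
    (y : H) (hy : y ∈ NN ρ) (i i' : Fin (n + 1)) :
    orb M ρ v (y * g) i * orb M ρ v g i' = orb M ρ v (y * g) i' * orb M ρ v g i := by
  let ρ' : NN ρ →* Matrix.GeneralLinearGroup (Fin r) K := ρ.comp (NN ρ).subtype
  let v' : Fin r → K := (ρ g : Matrix (Fin r) (Fin r) K).mulVec v
  have horb : ∀ y : NN ρ, orb M ρ' v' y = orb M ρ v ((y : H) * g) := by
    intro y
    unfold orb
    rw [map_mul, Units.val_mul, ← Matrix.mulVec_mulVec]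
    rfl
  have hX : ∀ y : NN ρ, ∀ F ∈ FF, aeval (orb M ρ' v' y) F = 0 := by
    intro y
    have h1 : Van Q ((ρ (y : H) : Matrix (Fin r) (Fin r) K).mulVec v') :=
      van_NN d ρ Q hQ (y : H) y.2 v' hg
    have h2 : Van (Q0 FF M d) ((ρ (y : H) : Matrix (Fin r) (Fin r) K).mulVec v') :=
      fun f hf => h1 f (hQ0 hf)
    exact (van_Q0 FF M d hd _).1 h2
  have htop : NN ρ' = ⊤ := Subgroup.closure_closure_coe_preimage (k := {h | NeatEl ρ h})
  have h1 := neat_const FF hhom G hGh hG M ρ' v' hX ⟨y, hy⟩ (by rw [htop]; trivial) 1 (by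
    rw [horb, Subgroup.coe_one, one_mul]
    exact hGg) i i'
  rw [horb, horb, Subgroup.coe_one, one_mul, one_mul] at h1
  exact h1

/-- the exceptional points -/
noncomputable def Exc (FF : Set (MvPolynomial (Fin (n + 1)) k)) (G : MvPolynomial (Fin (n + 1)) k)
    (M : Matrix (Fin (n + 1)) (Fin r) K) (ρ : H →* Matrix.GeneralLinearGroup (Fin r) K)
    (v : Fin r → K) (d : ℕ) : Set (Projectivization K (Fin (n + 1) → K)) :=
  {P | ∃ (g : H) (h0 : orb M ρ v g ≠ 0), aeval (orb M ρ v g) G ≠ 0 ∧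
    P = Projectivization.mk K (orb M ρ v g) h0 ∧
    ∃ Q : Submodule K (restrictTotalDegree (Fin r) K d), Q0 FF M d ≤ Q ∧
      (letI := actn d ρ; (MulAction.orbit H Q).Finite) ∧
      Van Q ((ρ g : Matrix (Fin r) (Fin r) K).mulVec v)}

theorem exc_card [CharZero k] [CharZero K] (FF : Set (MvPolynomial (Fin (n + 1)) k))
    (hhom : ∀ F ∈ FF, ∃ e, F.IsHomogeneous e)
    (G : MvPolynomial (Fin (n + 1)) k) (hGh : ∃ e, G.IsHomogeneous e)
    (hG : CurCond FF G (r * r)) {D : ℕ} (hD : SpecDeg K D) (hH : Group.FG H)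
    (M : Matrix (Fin (n + 1)) (Fin r) K)
    (ρ : H →* Matrix.GeneralLinearGroup (Fin r) K) (v : Fin r → K) (d : ℕ)
    (hd : ∀ F ∈ FF, F.totalDegree ≤ d) :
    (Exc FF G M ρ v d).encard ≤ bd r D := by
  classical
  obtain ⟨hidx, hdvd⟩ := NN_index_bd hD hH ρ
  have hfin : Finite (H ⧸ NN ρ) := by
    have : (NN ρ).FiniteIndex := ⟨hidx⟩
    infer_instance
  choose! sel hsel using fun P (hP : P ∈ Exc FF G M ρ v d) => hP
  have hinj : Set.InjOn (fun P => ((sel P : H) : H ⧸ NN ρ)) (Exc FF G M ρ v d) := by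
    intro P hP P' hP' heq
    obtain ⟨h0, hG1, hPe, Q, hQ1, hQ2, hQ3⟩ := hsel P hP
    obtain ⟨h0', hG', hPe', -⟩ := hsel P' hP'
    have h2 : (sel P)⁻¹ * sel P' ∈ NN ρ := QuotientGroup.eq.1 heq
    have h3 : sel P' * (sel P)⁻¹ ∈ NN ρ := (NN_normal ρ).mem_comm h2
    have hk := exc_const FF hhom G hGh hG M ρ v d hd Q hQ1 hQ2 (sel P) hQ3 hG1 _ h3
    rw [inv_mul_cancel_right] at hk
    rw [hPe, hPe', Projectivization.mk_eq_mk_iff']
    obtain ⟨i0, hi0⟩ : ∃ i, orb M ρ v (sel P') i ≠ 0 := by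
      by_contra hcon
      push Not at hcon
      exact h0' (funext hcon)
    refine ⟨orb M ρ v (sel P) i0 / orb M ρ v (sel P') i0, funext fun i => ?_⟩
    rw [Pi.smul_apply, smul_eq_mul, div_mul_eq_mul_div, div_eq_iff hi0]
    have := hk i i0
    linear_combination this
  have h1 : (Exc FF G M ρ v d).encard ≤ Nat.card (H ⧸ NN ρ) := by
    calc (Exc FF G M ρ v d).encard ≤ (Set.univ : Set (H ⧸ NN ρ)).encard :=
          Set.encard_le_encard_of_injOn (fun _ _ => Set.mem_univ _) hinj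
      _ = Nat.card (H ⧸ NN ρ) := by
          have h1 : Fintype (H ⧸ NN ρ) := Fintype.ofFinite _
          rw [Set.encard_univ, ENat.card_eq_coe_fintype_card, Nat.card_eq_fintype_card]
  refine h1.trans ?_
  rw [← Subgroup.index_eq_card]
  exact_mod_cast Nat.le_of_dvd (bd_pos r D) hdvd

end

end Pool.Agent.N470.RW
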