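import Pool.Agent.N470.RW.Conv

set_option autoImplicit false

/-! # Random words on varieties without rational curves -/

namespace Pool.Agent.N470.RW

open MvPolynomial Pool.Agent.TH717.GO

section

variable {n r s : ℕ} {k K : Type} [Field k] [Field K] [Algebra k K]

/-- the words of length `m` which represent points of the zero set `X` of `FF` outside `E` -/
def hits (FF : Finset (MvPolynomial (Fin (n + 1)) k)) (M : Matrix (Fin (n + 1)) (Fin r) K)
    (A : Fin s → Matrix.GeneralLinearGroup (Fin r) K) (v : Fin r → K)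
    (E : Set (Projectivization K (Fin (n + 1) → K))) (m : ℕ) : Set (Fin m → Fin s) :=
  {w | (∀ F ∈ FF, aeval (wvec M A v w) F = 0) ∧
    ∃ h : wvec M A v w ≠ 0, Projectivization.mk K (wvec M A v w) h ∉ E}

theorem hits_eq (FF : Finset (MvPolynomial (Fin (n + 1)) k)) (M : Matrix (Fin (n + 1)) (Fin r) K)
    (A : Fin s → Matrix.GeneralLinearGroup (Fin r) K) (v : Fin r → K)
    (E : Set (Projectivization K (Fin (n + 1) → K))) (m : ℕ) :
    hits FF M A v E m = hitsG (FF : Set (MvPolynomial (Fin (n + 1)) k)) 1 M A v E m := by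
  ext w
  unfold hits hitsG
  simp only [Set.mem_ofPred_eq, map_one, ne_eq, one_ne_zero, not_false_eq_true, true_and]
  rfl

theorem div_form (S s N c : ℝ) (hN : 0 < N) (h : S ≤ 6 * s * N ^ (1 - c)) :
    S / N ≤ 6 * s * N ^ (-c) := by
  rw [div_le_iff₀ hN]
  refine h.trans (le_of_eq ?_)
  rw [sub_eq_add_neg, Real.rpow_add hN, Real.rpow_one]
  ring

theorem mul_form (S s N c : ℝ) (hN : 0 < N) (h : S / N ≤ 6 * s * N ^ (-c)) :
    S ≤ 6 * s * N ^ (1 - c) := by
  rw [div_le_iff₀ hN] at h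
  refine h.trans (le_of_eq ?_)
  rw [sub_eq_add_neg, Real.rpow_add hN, Real.rpow_one]
  ring

theorem fwd {k : Type} [Field k] [NumberField k] (σ : k →+* ℂ)
    (FF : Finset (MvPolynomial (Fin (n + 1)) k)) (hhom : ∀ F ∈ FF, ∃ e, F.IsHomogeneous e)
    (hno : NoRatC σ (FF : Set (MvPolynomial (Fin (n + 1)) k)))
    (K : Type) [Field K] [NumberField K] [Algebra k K] (r s d : ℕ) (hs : 1 ≤ s)
    (hd : ∀ F ∈ FF, F.totalDegree ≤ d) (M : Matrix (Fin (n + 1)) (Fin r) K)
    (A : Fin s → Matrix.GeneralLinearGroup (Fin r) K) (v : Fin r → K) :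
    ∃ E : Set (Projectivization K (Fin (n + 1) → K)), E.encard ≤ bd r (Module.finrank ℚ K) ∧
      ∀ N : ℕ, 1 ≤ N → (∑ m ∈ Finset.range N, ((hits FF M A v E m).ncard : ℝ) / s ^ m) / N ≤
        6 * s * (N : ℝ) ^ (-(1 / 2 : ℝ) ^ ((r + d).choose d + 2)) := by
  obtain ⟨E, hE, h⟩ := main_bound (FF : Set (MvPolynomial (Fin (n + 1)) k))
    (fun F hF => hhom F hF) 1 ⟨0, MvPolynomial.isHomogeneous_one _ _⟩
    (noRat_all σ _ hno (r * r)) (specDeg_of_numberField K _ le_rfl) d (fun F hF => hd F hF) hs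
    M A v
  refine ⟨E, hE, fun N hN => ?_⟩
  simp only [hits_eq]
  exact div_form _ _ _ _ (by positivity) (h N hN)

theorem bwd {k : Type} [Field k] [NumberField k] (σ : k →+* ℂ)
    (FF : Finset (MvPolynomial (Fin (n + 1)) k))
    (hrw : ∀ (K : Type) [Field K] [NumberField K] [Algebra k K] (r s d : ℕ), 1 ≤ s →
      (∀ F ∈ FF, F.totalDegree ≤ d) → ∀ (M : Matrix (Fin (n + 1)) (Fin r) K)
      (A : Fin s → Matrix.GeneralLinearGroup (Fin r) K) (v : Fin r → K),
      ∃ E : Set (Projectivization K (Fin (n + 1) → K)), E.encard ≤ bd r (Module.finrank ℚ K) ∧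
        ∀ N : ℕ, 1 ≤ N → (∑ m ∈ Finset.range N, ((hits FF M A v E m).ncard : ℝ) / s ^ m) / N ≤
          6 * s * (N : ℝ) ^ (-(1 / 2 : ℝ) ^ ((r + d).choose d + 2))) :
    NoRatC σ (FF : Set (MvPolynomial (Fin (n + 1)) k)) := by
  classical
  by_contra h
  unfold NoRatC at h
  push Not at h
  obtain ⟨q, hq, i, j, a, b, hab⟩ := h
  let _ : Algebra k ℂ := σ.toAlgebra
  let sh : Polynomial ℂ →+* Polynomial ℂ :=
    Polynomial.compRingHom (Polynomial.X + Polynomial.C (b - 1))
  let p : Fin (n + 1) → Polynomial ℂ := fun i => sh (q i)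
  have hpe : ∀ i (t : ℂ), (p i).eval t = (q i).eval (t + (b - 1)) := by
    intro i t
    show ((q i).comp _).eval t = _
    rw [Polynomial.eval_comp, Polynomial.eval_add, Polynomial.eval_X, Polynomial.eval_C]
  have hp : ∀ F ∈ (FF : Set (MvPolynomial (Fin (n + 1)) k)), MvPolynomial.aeval p F = 0 := by
    intro F hF
    have h1 := congrArg sh (hq F hF)
    rw [map_zero, MvPolynomial.hom_eval₂] at h1
    rw [MvPolynomial.aeval_def]
    have h2 : sh.comp (Polynomial.C.comp σ) = algebraMap k (Polynomial ℂ) := by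
      refine RingHom.ext fun x => ?_
      show (Polynomial.C (σ x)).comp _ = _
      rw [Polynomial.C_comp, Polynomial.algebraMap_apply]
      rfl
    rw [← h2]
    exact h1
  set N : ℕ := Finset.univ.sup (fun i => (p i).natDegree) + 1 with hN
  have hNc : ∀ i m, N ≤ m → (p i).coeff m = 0 := by
    intro i m hm
    apply Polynomial.coeff_eq_zero_of_natDegree_lt
    have := Finset.le_sup (f := fun i => (p i).natDegree) (Finset.mem_univ i)
    omega
  obtain ⟨K, iK, iN, iAK, w, h1, h2, h3⟩ := Pool.Agent.TH409.SH.specialise k ℂ p FF hp N hNc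
    ⟨i, j, fun heq => hab (by
      have h4 := congrArg (Polynomial.eval (a - (b - 1))) heq
      rw [Polynomial.eval_mul, Polynomial.eval_mul, Polynomial.eval_C, Polynomial.eval_C, hpe, hpe,
        hpe, hpe] at h4
      simpa using h4)⟩ 1 (by rw [map_one]; exact one_ne_zero)
  obtain ⟨E, hE, hb⟩ := hrw K N 1 (FF.sup totalDegree) le_rfl (fun F hF => Finset.le_sup hF)
    (M0 w) (fun _ : Fin 1 => dia K N (Multiplicative.ofAdd 1)) (fun _ => 1)
  have hEf : E.Finite := by
    refine Set.finite_of_encard_le_coe (k := bd N (Module.finrank ℚ K)) hE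
  have hfin := curve_hits (FF : Set (MvPolynomial (Fin (n + 1)) k)) 1 w h1 h2 h3 E hEf
  refine count_contra (fun m => ((hits FF (M0 w)
    (fun _ : Fin 1 => dia K N (Multiplicative.ofAdd 1)) (fun _ => 1) E m).ncard : ℝ) /
      ((1 : ℕ) : ℝ) ^ m) (fun m => by positivity) _ hfin ?_
    (6 * ((1 : ℕ) : ℝ)) ((1 / 2 : ℝ) ^ ((N + FF.sup totalDegree).choose (FF.sup totalDegree) + 2))
    (by positivity) ?_
  · intro m hm
    have h4 : ∀ u : Fin m → Fin 1, u ∈ hitsG (FF : Set (MvPolynomial (Fin (n + 1)) k)) 1 (M0 w)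
        (fun _ : Fin 1 => dia K N (Multiplicative.ofAdd 1)) (fun _ => 1) E m := by
      by_contra hcon
      exact hm hcon
    rw [Nat.cast_one, one_pow, div_one, hits_eq]
    have h5 : 1 ≤ (hitsG (FF : Set (MvPolynomial (Fin (n + 1)) k)) 1 (M0 w)
        (fun _ : Fin 1 => dia K N (Multiplicative.ofAdd 1)) (fun _ => 1) E m).ncard := by
      rw [Nat.one_le_iff_ne_zero, ← Nat.pos_iff_ne_zero, Set.ncard_pos (Set.toFinite _)]
      exact ⟨fun _ => 0, h4 _⟩
    exact_mod_cast h5
  · intro N' hN'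
    exact mul_form _ _ _ _ (by positivity) (hb N' hN')

end

end Pool.Agent.N470.RW
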