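import Pool.Agent.N470.RW.Aff
import Pool.Agent.W235.RM.Final

set_option autoImplicit false

/-! # Random words on affine varieties: the equivalence -/

namespace Pool.Agent.N470.RW

open MvPolynomial Pool.Agent.TH717.GO Pool.Agent.Y377.AO Pool.Agent.W235.RM
open Pool.Agent.H159R3.Exp (FinitelyManyIntegral ExpCurvesIn)
open Pool.Agent.Y215.AF (exists_cpt)
open scoped NumberField

section

variable {K : Type} [Field K] {ι κ : Type} {n : ℕ}

/-- the common zeros of `F` with coordinates in `L` -/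
def ZerosA (F : ι → MvPolynomial (Fin n) (𝓞 K)) (L : Type) [Field L] [Algebra K L] :
    Set (Fin n → L) :=
  {x | ∀ i, eval₂ ((algebraMap K L).comp (algebraMap (𝓞 K) K)) x (F i) = 0}

/-- the words of length `m` which represent points of `V` neither in `V'` nor in `E` -/
def wordsV (F : ι → MvPolynomial (Fin n) (𝓞 K)) (G : κ → MvPolynomial (Fin n) (𝓞 K))
    {L : Type} [Field L] [Algebra K L] {r s : ℕ} (M : Matrix (Fin n) (Fin r) L)
    (A : Fin s → Matrix.GeneralLinearGroup (Fin r) L) (v : Fin r → L) (E : Set (Fin n → L))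
    (m : ℕ) : Set (Fin m → Fin s) :=
  {w | wvecA M A v w ∈ ZerosA F L \ (ZerosA G L ∪ E)}

theorem wordsV_eq (F : ι → MvPolynomial (Fin n) (𝓞 K)) (G : κ → MvPolynomial (Fin n) (𝓞 K))
    {L : Type} [Field L] [Algebra K L] {r s : ℕ} (M : Matrix (Fin n) (Fin r) L)
    (A : Fin s → Matrix.GeneralLinearGroup (Fin r) L) (v : Fin r → L) (E : Set (Fin n → L))
    (m : ℕ) : wordsV F G M A v E m = hitsA (mapS F) (mapS G) M A v E m := by
  ext w
  constructor
  · rintro ⟨h1, h2⟩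
    have h3 : ¬ ∀ i, eval₂ ((algebraMap K L).comp (algebraMap (𝓞 K) K)) (wvecA M A v w) (G i) = 0 :=
      fun h => h2 (Or.inl h)
    push Not at h3
    obtain ⟨i, hi⟩ := h3
    refine ⟨?_, ⟨_, ⟨i, rfl⟩, ?_⟩, fun h => h2 (Or.inr h)⟩
    · rintro _ ⟨j, rfl⟩
      rw [aeval_mapS]
      exact h1 j
    · rw [aeval_mapS]
      exact hi
  · rintro ⟨h1, ⟨_, ⟨i, rfl⟩, h2⟩, h3⟩
    refine ⟨fun j => ?_, ?_⟩
    · have := h1 _ ⟨j, rfl⟩
      rwa [aeval_mapS] at this
    · rintro (h4 | h4)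
      · rw [aeval_mapS] at h2
        exact h2 (h4 i)
      · exact h3 h4

theorem mapS_degree (F : ι → MvPolynomial (Fin n) (𝓞 K)) (d : ℕ) (hd : ∀ i, (F i).totalDegree ≤ d) :
    ∀ P ∈ mapS F, P.totalDegree ≤ d := by
  rintro _ ⟨i, rfl⟩
  exact (totalDegree_map_le' _ _).trans (hd i)

/-- random words rarely represent points of `V` outside `V'`, except for a bounded number of
points -/
def RareV (F : ι → MvPolynomial (Fin n) (𝓞 K)) (G : κ → MvPolynomial (Fin n) (𝓞 K)) : Prop :=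
  ∀ (L : Type) [Field L] [NumberField L] [Algebra K L] (r s d : ℕ), 1 ≤ s →
    (∀ i, (F i).totalDegree ≤ d) → ∀ (M : Matrix (Fin n) (Fin r) L)
    (A : Fin s → Matrix.GeneralLinearGroup (Fin r) L) (v : Fin r → L),
    ∃ E : Set (Fin n → L), E.encard ≤ bd r (Module.finrank ℚ L) ∧
      ∀ N : ℕ, 1 ≤ N → (∑ m ∈ Finset.range N, ((wordsV F G M A v E m).ncard : ℝ) / s ^ m) / N ≤
        6 * s * (N : ℝ) ^ (-(1 / 2 : ℝ) ^ ((r + d).choose d + 2))

theorem rareV_of_gm [NumberField K] [Finite ι] (σ : K →+* ℂ)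
    (F : ι → MvPolynomial (Fin n) (𝓞 K)) (G : κ → MvPolynomial (Fin n) (𝓞 K))
    (h : GmCurvesIn σ F G) : RareV F G := by
  intro L _ _ _ r s d hs hd M A v
  obtain ⟨E, hE, h1⟩ := main_boundA (orb_coreA _ _ r (acond_of_noLaurent F G
    (fun h2 => not_gm_of_hasLaurent σ F G h2 h) (r * r))) d (mapS_degree F d hd) hs M A v
  obtain ⟨hidx, hdvd⟩ := NN_index_bd (specDeg_of_numberField L _ le_rfl) (H := FreeGroup (Fin s))
    inferInstance (FreeGroup.lift A)
  refine ⟨E, hE.trans ?_, fun N hN => ?_⟩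
  · exact_mod_cast Nat.le_of_dvd (bd_pos r _) hdvd
  · simp only [wordsV_eq]
    exact h1 N hN

theorem gm_of_rareV [NumberField K] [Finite ι] (σ : K →+* ℂ)
    (F : ι → MvPolynomial (Fin n) (𝓞 K)) (G : κ → MvPolynomial (Fin n) (𝓞 K))
    (hr : RareV F G) : GmCurvesIn σ F G := by
  classical
  by_contra hgm
  obtain ⟨L, iF, iN, iA, v, hv, hvF, ⟨l, hl⟩, k1, j1, hk1⟩ :=
    hasLaurent_of_exp F G σ (not_exp_of_not_gm σ F G hgm)
  obtain ⟨e, D, κ, hκ⟩ := exists_cpt v hv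
  have h20 : (2 : L) ^ k1 ≠ 0 := pow_ne_zero _ two_ne_zero
  have hfi : Fintype ι := Fintype.ofFinite ι
  let d : ℕ := Finset.univ.sup fun i => (F i).totalDegree
  have hd : ∀ i, (F i).totalDegree ≤ d := fun i =>
    Finset.le_sup (f := fun i => (F i).totalDegree) (Finset.mem_univ i)
  obtain ⟨E, hE, hb⟩ := hr L (D + 1) 1 d le_rfl hd (fun i j => κ (i, j))
    (fun _ : Fin 1 => diaE L (D + 1) e (Multiplicative.ofAdd 1)) (fun _ => 1)
  have hEf : E.Finite := Set.finite_of_encard_le_coe hE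
  have hfin := inf_hits (k := K) (mapS F) (mapS G) e κ (by
    rintro _ ⟨i, rfl⟩ t ht
    rw [hκ t ht, aeval_mapS]
    exact hvF i t ht) ⟨_, ⟨l, rfl⟩, by
      rw [hκ _ one_ne_zero, aeval_mapS]
      exact hl⟩ k1 j1 (by
      rw [hκ _ h20, hκ _ one_ne_zero]
      exact hk1) E hEf
  refine count_contra (fun m => ((wordsV F G (fun i j => κ (i, j))
    (fun _ : Fin 1 => diaE L (D + 1) e (Multiplicative.ofAdd 1)) (fun _ => 1) E m).ncard : ℝ) /
      ((1 : ℕ) : ℝ) ^ m) (fun m => by positivity) _ hfin ?_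
    (6 * ((1 : ℕ) : ℝ)) ((1 / 2 : ℝ) ^ ((D + 1 + d).choose d + 2))
    (by positivity) ?_
  · intro m hm
    have h4 : ∀ u : Fin m → Fin 1, u ∈ hitsA (mapS F) (mapS G) (fun i j => κ (i, j))
        (fun _ : Fin 1 => diaE L (D + 1) e (Multiplicative.ofAdd 1)) (fun _ => 1) E m := by
      by_contra hcon
      exact hm hcon
    rw [Nat.cast_one, one_pow, div_one, wordsV_eq]
    have h5 : 1 ≤ (hitsA (mapS F) (mapS G) (fun i j => κ (i, j))
        (fun _ : Fin 1 => diaE L (D + 1) e (Multiplicative.ofAdd 1)) (fun _ => 1) E m).ncard := by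
      rw [Nat.one_le_iff_ne_zero, ← Nat.pos_iff_ne_zero, Set.ncard_pos (Set.toFinite _)]
      exact ⟨fun _ => 0, h4 _⟩
    exact_mod_cast h5
  · intro N hN
    have hN0 : (0 : ℝ) < N := by positivity
    have h6 := hb N hN
    rw [div_le_iff₀ hN0] at h6
    refine h6.trans (le_of_eq ?_)
    rw [sub_eq_add_neg, Real.rpow_add hN0, Real.rpow_one]
    ring

/-- **the equivalence** -/
theorem rareV_iff [NumberField K] [Finite ι] (σ : K →+* ℂ)
    (F : ι → MvPolynomial (Fin n) (𝓞 K)) (G : κ → MvPolynomial (Fin n) (𝓞 K)) :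
    (GmCurvesIn σ F G ↔ RareV F G) ∧ (EntireCurvesIn σ F G → RareV F G) ∧
      (FinitelyManyIntegral F G → RareV F G) := by
  have h0 := tfae σ F G
  refine ⟨⟨rareV_of_gm σ F G, gm_of_rareV σ F G⟩, fun h => rareV_of_gm σ F G ?_,
    fun h => rareV_of_gm σ F G ?_⟩
  · exact (h0.out 0 1 : ExpCurvesIn σ F G ↔ GmCurvesIn σ F G).1 (exp_of_entire σ F G h)
  · have h6 : RecurrenceFinite F G := rec_of_integral F G h
    exact (h0.out 5 1 : RecurrenceFinite F G ↔ GmCurvesIn σ F G).1 h6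

end

end Pool.Agent.N470.RW
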