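import Pool.Agent.N470.RW.ConvG

set_option autoImplicit false

/-! # Random words on varieties which are not uniruled -/

namespace Pool.Agent.N470.RW

open MvPolynomial Pool.Agent.TH717.GO Pool.Agent.H533R3.SL

theorem fwd_gen {n : ℕ} {k : Type} [Field k] [CharZero k]
    (FF : Finset (MvPolynomial (Fin (n + 1)) k)) (hhom : ∀ F ∈ FF, ∃ e, F.IsHomogeneous e)
    (hprime : (Ideal.span (FF : Set (MvPolynomial (Fin (n + 1)) k))).IsPrime)
    (hnu : ¬ Uniruled (Ideal.span (FF : Set (MvPolynomial (Fin (n + 1)) k)))) (r : ℕ) :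
    ∃ G : MvPolynomial (Fin (n + 1)) k, (∃ e, G.IsHomogeneous e) ∧
      G ∉ Ideal.span (FF : Set (MvPolynomial (Fin (n + 1)) k)) ∧
      ∀ (K : Type) [Field K] [Algebra k K] (s d : ℕ) (A : Fin s → Matrix.GeneralLinearGroup (Fin r) K),
        1 ≤ s → (∀ F ∈ FF, F.totalDegree ≤ d) →
        ∃ B : ℕ, (∀ [NumberField K], B ∣ bd r (Module.finrank ℚ K)) ∧
          ∀ (M : Matrix (Fin (n + 1)) (Fin r) K) (v : Fin r → K),
          ∃ E : Set (Projectivization K (Fin (n + 1) → K)), E.encard ≤ B ∧ ∀ N : ℕ, 1 ≤ N →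
            (∑ m ∈ Finset.range N, ((hitsG (FF : Set (MvPolynomial (Fin (n + 1)) k)) G M A v E
              m).ncard : ℝ) / s ^ m) / N ≤
            6 * s * (N : ℝ) ^ (-(1 / 2 : ℝ) ^ ((r + d).choose d + 2)) := by
  obtain ⟨G, hG1, hG2, hG3⟩ := hyper_poly FF hprime hnu hhom (r * r)
  refine ⟨G, hG1, hG2, ?_⟩
  intro K _ _ s d A hs hd
  have hK0 : CharZero K := charZero_of_injective_algebraMap (FaithfulSMul.algebraMap_injective k K)
  refine ⟨(NN (FreeGroup.lift A)).index, ?_, ?_⟩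
  · intro hNF
    exact (NN_index_bd (specDeg_of_numberField K _ le_rfl) inferInstance _).2
  · intro M v
    exact main_bound_index (FF : Set (MvPolynomial (Fin (n + 1)) k)) hhom G hG1 hG3 d hd hs M A v

end Pool.Agent.N470.RW
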