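import Pool.Agent.N470.RW.Main
import Pool.Agent.TH717.GO.FG

set_option autoImplicit false

/-! # Random words over arbitrary fields of characteristic zero -/

namespace Pool.Agent.N470.RW

open MvPolynomial Pool.Agent.TH717.GO Pool.Agent.H533R3.SL

section

variable {n r s : ℕ} {k K : Type} [Field k] [Field K] [Algebra k K] {H : Type} [Group H]

/-- the index of the subgroup generated by the neat elements is not zero -/
theorem NN_index_ne [CharZero K] (hH : Group.FG H)
    (ρ : H →* Matrix.GeneralLinearGroup (Fin r) K) : (NN ρ).index ≠ 0 := by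
  obtain ⟨S, hS⟩ := fg_subring hH ρ
  obtain ⟨N, hN, hp⟩ := exists_residue_closure S
  obtain ⟨p₁, hp₁N, hp₁⟩ := Nat.exists_infinite_primes (N + 1)
  obtain ⟨p₂, hp₂N, hp₂⟩ := Nat.exists_infinite_primes (p₁ + 1)
  have hnd : ∀ p, N + 1 ≤ p → ¬ p ∣ N := fun p hp h => by
    have := Nat.le_of_dvd (Nat.pos_of_ne_zero hN) h
    omega
  obtain ⟨F₁, i1, f1, hc1, ⟨φ₁⟩⟩ := hp p₁ hp₁ (hnd p₁ hp₁N)
  obtain ⟨F₂, i2, f2, hc2, ⟨φ₂⟩⟩ := hp p₂ hp₂ (hnd p₂ (by omega))
  have h0 := NN_index_two (Subring.closure (S : Set K)) φ₁ φ₂ (by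
    rw [hc1, hc2]
    omega) (toSub _ ρ hS)
  rw [ext_toSub] at h0
  exact h0

theorem exc_card_index [CharZero k] [CharZero K] (FF : Set (MvPolynomial (Fin (n + 1)) k))
    (hhom : ∀ F ∈ FF, ∃ e, F.IsHomogeneous e)
    (G : MvPolynomial (Fin (n + 1)) k) (hGh : ∃ e, G.IsHomogeneous e)
    (hG : CurCond FF G (r * r)) (M : Matrix (Fin (n + 1)) (Fin r) K)
    (ρ : H →* Matrix.GeneralLinearGroup (Fin r) K) (hidx : (NN ρ).index ≠ 0)
    (v : Fin r → K) (d : ℕ) (hd : ∀ F ∈ FF, F.totalDegree ≤ d) :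
    (Exc FF G M ρ v d).encard ≤ (NN ρ).index := by
  classical
  have hfin : Finite (H ⧸ NN ρ) := by
    have : (NN ρ).FiniteIndex := ⟨hidx⟩
    infer_instance
  choose! sel hsel using fun P (hP : P ∈ Exc FF G M ρ v d) => hP
  have hinj : Set.InjOn (fun P => ((sel P : H) : H ⧸ NN ρ)) (Exc FF G M ρ v d) := by
    intro P hP P' hP' heq
    obtain ⟨h0, hG1, hPe, Q, hQ1, hQ2, hQ3⟩ := hsel P hP
    obtain ⟨h0', hG', hPe', -⟩ := hsel P' hP'
    have h2 : (sel P)⁻¹ * sel P' ∈ NN ρ := QuotientGroup.eq.1 heq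
    have h3 : sel P' * (sel P)⁻¹ ∈ NN ρ := (NN_normal ρ).mem_comm h2
    have hk := exc_const FF hhom G hGh hG M ρ v d hd Q hQ1 hQ2 (sel P) hQ3 hG1 _ h3
    rw [inv_mul_cancel_right] at hk
    rw [hPe, hPe', Projectivization.mk_eq_mk_iff']
    obtain ⟨i0, hi0⟩ : ∃ i, orb M ρ v (sel P') i ≠ 0 := by
      by_contra hcon
      push Not at hcon
      exact h0' (funext hcon)
    refine ⟨orb M ρ v (sel P) i0 / orb M ρ v (sel P') i0, funext fun i => ?_⟩
    rw [Pi.smul_apply, smul_eq_mul, div_mul_eq_mul_div, div_eq_iff hi0]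
    have := hk i i0
    linear_combination this
  calc (Exc FF G M ρ v d).encard ≤ (Set.univ : Set (H ⧸ NN ρ)).encard :=
        Set.encard_le_encard_of_injOn (fun _ _ => Set.mem_univ _) hinj
    _ = ((NN ρ).index : ℕ∞) := by
        have h1 : Fintype (H ⧸ NN ρ) := Fintype.ofFinite _
        rw [Set.encard_univ, ENat.card_eq_coe_fintype_card, ← Nat.card_eq_fintype_card,
          Subgroup.index_eq_card]

theorem finite_restrict (K : Type) [Field K] (r d : ℕ) :
    FiniteDimensional K (restrictTotalDegree (Fin r) K d) := by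
  classical
  have hb := MvPolynomial.basisRestrictSupport K {n : Fin r →₀ ℕ | (n.sum fun _ e => e) ≤ d}
  have hf : Finite {n : Fin r →₀ ℕ | (n.sum fun _ e => e) ≤ d} := by
    have h1 : {n : Fin r →₀ ℕ | (n.sum fun _ e => e) ≤ d} ⊆
        ((Finset.range (d + 1)).biUnion fun e =>
          Finset.finsuppAntidiag (Finset.univ : Finset (Fin r)) e : Finset (Fin r →₀ ℕ)) := by
      intro x hx
      rw [Finset.mem_coe, Finset.mem_biUnion]
      refine ⟨x.sum fun _ e => e, Finset.mem_range.2 (Nat.lt_succ_of_le hx), ?_⟩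
      rw [Finset.mem_finsuppAntidiag]
      refine ⟨?_, Finset.subset_univ _⟩
      rw [Finsupp.sum_fintype _ _ (fun _ => rfl)]
    exact (Finset.finite_toSet _).subset h1
  exact Module.Finite.of_basis hb

/-- the elements of a finitely generated group of matrices which map `v` to a zero of `Q`: they are
rarely hit, except for those which map it to a zero of a larger subspace with a finite orbit -/
theorem rare_sub {K : Type} [Field K] {r s : ℕ} (hs : 1 ≤ s)
    (A : Fin s → Matrix.GeneralLinearGroup (Fin r) K) (v : Fin r → K) (d : ℕ)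
    (Q : Submodule K (restrictTotalDegree (Fin r) K d)) (N : ℕ) (hN : 1 ≤ N) :
    letI := actn d (FreeGroup.lift A)
    AA (FreeGroup.of : Fin s → FreeGroup (Fin s)) N (ind (kap d v) Q) ≤
      6 * s * (N : ℝ) ^ (-((1 / 2 : ℝ) ^ ((r + d).choose d + 2))) := by
  classical
  let ρ : FreeGroup (Fin s) →* Matrix.GeneralLinearGroup (Fin r) K := FreeGroup.lift A
  let a : Fin s → FreeGroup (Fin s) := FreeGroup.of
  let _ := actn d ρ
  have hfinV := finite_restrict K r d
  set D' := (r + d).choose d with hD'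
  have hgen : Subgroup.closure (Set.range a) = ⊤ := FreeGroup.closure_range_of _
  exact abs_main (act_mono d ρ) (fun Q => Module.finrank K Q)
    (fun Q Q' h => Submodule.finrank_lt_finrank_of_lt h) (by
      intro g Q
      have hinj : Function.Injective (pullV d (ρ g⁻¹ : Matrix (Fin r) (Fin r) K)) := by
        intro f f' hff
        have h2 := congrArg (pullV d (ρ g : Matrix (Fin r) (Fin r) K)) hff
        rw [← pullV_mul, ← pullV_mul, ← Units.val_mul, ← map_mul, inv_mul_cancel, map_one,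
          Units.val_one, pullV_one, pullV_one] at h2
        exact h2
      exact (Submodule.equivMapOfInjective _ hinj Q).finrank_eq.symm) D' (by
      intro Q
      exact (Submodule.finrank_le Q).trans (finrank_restrict r d)) hs a hgen (kap d v) D'
      Q (by omega) N hN

/-- the product of the letters of a word -/
theorem lift_word {r s : ℕ} {K : Type} [Field K]
    (A : Fin s → Matrix.GeneralLinearGroup (Fin r) K) {m : ℕ} (w : Fin m → Fin s) :
    FreeGroup.lift A (List.ofFn fun i => FreeGroup.of (w i)).prod =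
      (List.ofFn fun i => A (w i)).prod := by
  rw [map_list_prod, List.map_ofFn]
  congr 2
  funext i
  exact FreeGroup.lift_apply_of

theorem main_bound_index [CharZero k] [CharZero K] (FF : Set (MvPolynomial (Fin (n + 1)) k))
    (hhom : ∀ F ∈ FF, ∃ e, F.IsHomogeneous e)
    (G : MvPolynomial (Fin (n + 1)) k) (hGh : ∃ e, G.IsHomogeneous e)
    (hG : CurCond FF G (r * r)) (d : ℕ)
    (hd : ∀ F ∈ FF, F.totalDegree ≤ d) (hs : 1 ≤ s) (M : Matrix (Fin (n + 1)) (Fin r) K)
    (A : Fin s → Matrix.GeneralLinearGroup (Fin r) K) (v : Fin r → K) :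
    ∃ E : Set (Projectivization K (Fin (n + 1) → K)),
      E.encard ≤ (NN (FreeGroup.lift A)).index ∧
      ∀ N : ℕ, 1 ≤ N → (∑ m ∈ Finset.range N, ((hitsG FF G M A v E m).ncard : ℝ) / s ^ m) / N ≤
        6 * s * (N : ℝ) ^ (-((1 / 2 : ℝ) ^ ((r + d).choose d + 2))) := by
  classical
  let ρ : FreeGroup (Fin s) →* Matrix.GeneralLinearGroup (Fin r) K := FreeGroup.lift A
  let a : Fin s → FreeGroup (Fin s) := FreeGroup.of
  let _ := actn d ρ
  refine ⟨Exc FF G M ρ v d, exc_card_index FF hhom G hGh hG M ρ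
    (NN_index_ne inferInstance ρ) v d hd, ?_⟩
  intro N hN
  have h1 := rare_sub hs A v d (Q0 FF M d) N hN
  refine le_trans ?_ h1
  have hw : ∀ {m : ℕ} (w : Fin m → Fin s),
      orb M ρ v (List.ofFn fun i => a (w i)).prod = wvec M A v w := by
    intro m w
    unfold orb wvec
    rw [lift_word A w]
  have h2 : ∀ m : ℕ, ((hitsG FF G M A v (Exc FF G M ρ v d) m).ncard : ℝ) / s ^ m ≤
      EE a m (ind (kap d v) (Q0 FF M d)) := by
    intro m
    rw [EE_words]
    refine div_le_div_of_nonneg_right ?_ (by positivity)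
    rw [Set.ncard_eq_toFinset_card', Finset.card_eq_sum_ones, Nat.cast_sum]
    refine le_trans (Finset.sum_le_sum (g := fun w : Fin m → Fin s =>
      ind (kap d v) (Q0 FF M d) (List.ofFn fun i => a (w i)).prod) ?_)
      (Finset.sum_le_sum_of_subset_of_nonneg (Finset.subset_univ _)
        fun w _ _ => ind_nonneg _ _ _)
    intro w hw1
    rw [Set.mem_toFinset] at hw1
    obtain ⟨hF, hGw, hne, hE⟩ := hw1
    have h4 : UU (kap d v) (Q0 FF M d) (List.ofFn fun i => a (w i)).prod := by
      refine ⟨?_, ?_⟩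
      · rw [le_smul_kap, van_Q0 FF M d hd]
        intro F hF1
        have := hF F hF1
        rw [← hw w] at this
        exact this
      · rintro ⟨Q, hQ1, hQ2, hQ3⟩
        rw [le_smul_kap] at hQ3
        apply hE
        refine ⟨(List.ofFn fun i => a (w i)).prod, by rw [hw]; exact hne, by rw [hw]; exact hGw,
          ?_, Q, hQ1, hQ2, hQ3⟩
        rw [Projectivization.mk_eq_mk_iff']
        exact ⟨1, by rw [one_smul, hw]⟩
    unfold ind
    rw [if_pos h4]
    norm_num
  unfold AA
  exact div_le_div_of_nonneg_right (Finset.sum_le_sum fun m _ => h2 m) (by positivity)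

end

end Pool.Agent.N470.RW
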