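import Pool.Agent.N470.RW.Exc

set_option autoImplicit false

/-! # Random words on a variety without curves -/

namespace Pool.Agent.N470.RW

open MvPolynomial Pool.Agent.TH717.GO

section

variable {n r s : ℕ} {k K : Type} [Field k] [Field K] [Algebra k K]

/-- the homogeneous coordinates `M A_{w 0} ⋯ A_{w (m - 1)} v` represented by a word -/
def wvec (M : Matrix (Fin (n + 1)) (Fin r) K) (A : Fin s → Matrix.GeneralLinearGroup (Fin r) K)
    (v : Fin r → K) {m : ℕ} (w : Fin m → Fin s) : Fin (n + 1) → K :=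
  M.mulVec ((((List.ofFn fun i => A (w i)).prod : Matrix.GeneralLinearGroup (Fin r) K) :
    Matrix (Fin r) (Fin r) K).mulVec v)

/-- the words of length `m` representing points of `FF = 0`, `G ≠ 0`, outside `E` -/
def hitsG (FF : Set (MvPolynomial (Fin (n + 1)) k)) (G : MvPolynomial (Fin (n + 1)) k)
    (M : Matrix (Fin (n + 1)) (Fin r) K)
    (A : Fin s → Matrix.GeneralLinearGroup (Fin r) K) (v : Fin r → K)
    (E : Set (Projectivization K (Fin (n + 1) → K))) (m : ℕ) : Set (Fin m → Fin s) :=
  {w | (∀ F ∈ FF, aeval (wvec M A v w) F = 0) ∧ aeval (wvec M A v w) G ≠ 0 ∧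
    ∃ h : wvec M A v w ≠ 0, Projectivization.mk K (wvec M A v w) h ∉ E}

theorem main_bound [CharZero k] [CharZero K] (FF : Set (MvPolynomial (Fin (n + 1)) k))
    (hhom : ∀ F ∈ FF, ∃ e, F.IsHomogeneous e)
    (G : MvPolynomial (Fin (n + 1)) k) (hGh : ∃ e, G.IsHomogeneous e)
    (hG : CurCond FF G (r * r)) {D : ℕ} (hD : SpecDeg K D) (d : ℕ)
    (hd : ∀ F ∈ FF, F.totalDegree ≤ d) (hs : 1 ≤ s) (M : Matrix (Fin (n + 1)) (Fin r) K)
    (A : Fin s → Matrix.GeneralLinearGroup (Fin r) K) (v : Fin r → K) :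
    ∃ E : Set (Projectivization K (Fin (n + 1) → K)), E.encard ≤ bd r D ∧
      ∀ N : ℕ, 1 ≤ N → ∑ m ∈ Finset.range N, ((hitsG FF G M A v E m).ncard : ℝ) / s ^ m ≤
        6 * s * (N : ℝ) ^ (1 - (1 / 2 : ℝ) ^ ((r + d).choose d + 2)) := by
  classical
  let ρ : FreeGroup (Fin s) →* Matrix.GeneralLinearGroup (Fin r) K := FreeGroup.lift A
  let a : Fin s → FreeGroup (Fin s) := FreeGroup.of
  let _ := actn d ρ
  have hfinV : FiniteDimensional K (restrictTotalDegree (Fin r) K d) := by
    have hb := MvPolynomial.basisRestrictSupport K {n : Fin r →₀ ℕ | (n.sum fun _ e => e) ≤ d}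
    have hf : Finite {n : Fin r →₀ ℕ | (n.sum fun _ e => e) ≤ d} := by
      have h1 : {n : Fin r →₀ ℕ | (n.sum fun _ e => e) ≤ d} ⊆
          ((Finset.range (d + 1)).biUnion fun e =>
            Finset.finsuppAntidiag (Finset.univ : Finset (Fin r)) e : Finset (Fin r →₀ ℕ)) := by
        intro x hx
        rw [Finset.mem_coe, Finset.mem_biUnion]
        refine ⟨x.sum fun _ e => e, Finset.mem_range.2 (Nat.lt_succ_of_le hx), ?_⟩
        rw [Finset.mem_finsuppAntidiag]
        refine ⟨?_, Finset.subset_univ _⟩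
        rw [Finsupp.sum_fintype _ _ (fun _ => rfl)]
      exact (Finset.finite_toSet _).subset h1
    exact Module.Finite.of_basis hb
  refine ⟨Exc FF G M ρ v d, exc_card FF hhom G hGh hG hD inferInstance M ρ v d hd, ?_⟩
  intro N hN
  have hN0 : (0 : ℝ) < N := by positivity
  set D' := (r + d).choose d with hD'
  have hgen : Subgroup.closure (Set.range a) = ⊤ := FreeGroup.closure_range_of _
  have h1 := abs_main (act_mono d ρ) (fun Q => Module.finrank K Q)
    (fun Q Q' h => Submodule.finrank_lt_finrank_of_lt h) (by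
      intro g Q
      have hinj : Function.Injective (pullV d (ρ g⁻¹ : Matrix (Fin r) (Fin r) K)) := by
        intro f f' hff
        have h2 := congrArg (pullV d (ρ g : Matrix (Fin r) (Fin r) K)) hff
        rw [← pullV_mul, ← pullV_mul, ← Units.val_mul, ← map_mul, inv_mul_cancel, map_one,
          Units.val_one, pullV_one, pullV_one] at h2
        exact h2
      exact (Submodule.equivMapOfInjective _ hinj Q).finrank_eq.symm) D' (by
      intro Q
      exact (Submodule.finrank_le Q).trans (finrank_restrict r d)) hs a hgen (kap d v) D'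
      (Q0 FF M d) (by omega) N hN
  have hw : ∀ {m : ℕ} (w : Fin m → Fin s),
      orb M ρ v (List.ofFn fun i => a (w i)).prod = wvec M A v w := by
    intro m w
    unfold orb wvec
    rw [map_list_prod, List.map_ofFn]
    have h2 : (⇑ρ ∘ fun i => a (w i)) = fun i => A (w i) := by
      funext i
      exact FreeGroup.lift_apply_of
    rw [h2]
  have h2 : ∀ m : ℕ, ((hitsG FF G M A v (Exc FF G M ρ v d) m).ncard : ℝ) / s ^ m ≤
      EE a m (ind (kap d v) (Q0 FF M d)) := by
    intro m
    rw [EE_words]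
    refine div_le_div_of_nonneg_right ?_ (by positivity)
    rw [Set.ncard_eq_toFinset_card', Finset.card_eq_sum_ones, Nat.cast_sum]
    refine le_trans (Finset.sum_le_sum (g := fun w : Fin m → Fin s =>
      ind (kap d v) (Q0 FF M d) (List.ofFn fun i => a (w i)).prod) ?_)
      (Finset.sum_le_sum_of_subset_of_nonneg (Finset.subset_univ _)
        fun w _ _ => ind_nonneg _ _ _)
    intro w hw1
    rw [Set.mem_toFinset] at hw1
    obtain ⟨hF, hGw, hne, hE⟩ := hw1
    have h4 : UU (kap d v) (Q0 FF M d) (List.ofFn fun i => a (w i)).prod := by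
      refine ⟨?_, ?_⟩
      · rw [le_smul_kap, van_Q0 FF M d hd]
        intro F hF1
        have := hF F hF1
        rw [← hw w] at this
        exact this
      · rintro ⟨Q, hQ1, hQ2, hQ3⟩
        rw [le_smul_kap] at hQ3
        apply hE
        refine ⟨(List.ofFn fun i => a (w i)).prod, by rw [hw]; exact hne, by rw [hw]; exact hGw,
          ?_, Q, hQ1, hQ2, hQ3⟩
        rw [Projectivization.mk_eq_mk_iff']
        exact ⟨1, by rw [one_smul, hw]⟩
    unfold ind
    rw [if_pos h4]
    norm_num
  have h3 : ∑ m ∈ Finset.range N,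
      ((hitsG FF G M A v (Exc FF G M ρ v d) m).ncard : ℝ) / s ^ m ≤
      N * AA a N (ind (kap d v) (Q0 FF M d)) := by
    unfold AA
    rw [mul_div_cancel₀ _ hN0.ne']
    exact Finset.sum_le_sum fun m _ => h2 m
  refine h3.trans ((mul_le_mul_of_nonneg_left h1 hN0.le).trans (le_of_eq ?_))
  rw [sub_eq_add_neg, Real.rpow_add hN0, Real.rpow_one]
  ring

end

end Pool.Agent.N470.RW
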