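import Mathlib

set_option autoImplicit false

/-! # Means over the products of letters in a group -/

namespace Pool.Agent.N470.RW

open Finset

section

variable {Γ : Type} [Group Γ] {s : ℕ}

/-- the mean of `F` over the `s ^ n` products of `n` letters -/
noncomputable def EE (a : Fin s → Γ) : ℕ → (Γ → ℝ) → ℝ
  | 0, F => F 1
  | n + 1, F => (∑ i, EE a n (fun h => F (a i * h))) / s

/-- the mean over the lengths `n < N` -/
noncomputable def AA (a : Fin s → Γ) (N : ℕ) (F : Γ → ℝ) : ℝ := (∑ n ∈ range N, EE a n F) / N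

theorem EE_words (a : Fin s → Γ) (n : ℕ) (F : Γ → ℝ) :
    EE a n F = (∑ w : Fin n → Fin s, F (List.ofFn fun i => a (w i)).prod) / s ^ n := by
  induction n generalizing F with
  | zero => simp [EE]
  | succ n ih =>
    rw [EE]
    have h1 : ∀ i, EE a n (fun h => F (a i * h)) =
        (∑ w : Fin n → Fin s, F (a i * (List.ofFn fun j => a (w j)).prod)) / s ^ n := fun i => ih _
    simp only [h1]
    rw [← Finset.sum_div, pow_succ, div_div]
    congr 1
    rw [← Finset.sum_product' (f := fun (i : Fin s) (w : Fin n → Fin s) =>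
      F (a i * (List.ofFn fun j => a (w j)).prod))]
    rw [Finset.univ_product_univ]
    refine Fintype.sum_equiv (Fin.consEquiv fun _ => Fin s) _ _ ?_
    rintro ⟨i, w⟩
    simp [Fin.consEquiv, List.ofFn_succ]

/-- a finite probability space with values in `Γ` -/
structure FP (Γ : Type) where
  I : Type
  ft : Fintype I
  p : I → ℝ
  el : I → Γ
  nn : ∀ i, 0 ≤ p i
  one : ∑ i, p i = 1

attribute [instance] FP.ft

/-- expectation -/
noncomputable def FP.E {Γ : Type} (P : FP Γ) (F : Γ → ℝ) : ℝ := ∑ i, P.p i * F (P.el i)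

theorem exists_AA (hs : 1 ≤ s) (a : Fin s → Γ) (N : ℕ) (hN : 1 ≤ N) :
    ∃ P : FP Γ, ∀ F : Γ → ℝ, AA a N F = P.E F := by
  have hs0 : (s : ℝ) ≠ 0 := by positivity
  have hN0 : (N : ℝ) ≠ 0 := by positivity
  let I := Σ n : Fin N, (Fin n → Fin s)
  refine ⟨⟨I, inferInstance, fun x => 1 / ((N : ℝ) * s ^ (x.1 : ℕ)),
    fun x => (List.ofFn fun i => a (x.2 i)).prod, fun x => by positivity, ?_⟩, ?_⟩
  · rw [Fintype.sum_sigma]
    simp only [Finset.sum_const, Finset.card_univ, Fintype.card_pi, Fintype.card_fin,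
      Finset.prod_const, nsmul_eq_mul]
    have : ∀ n : Fin N, (((s ^ (n : ℕ) : ℕ)) : ℝ) * (1 / ((N : ℝ) * s ^ (n : ℕ))) = 1 / N := by
      intro n
      push_cast
      field_simp
    rw [Finset.sum_congr rfl fun n _ => this n]
    simp only [Finset.sum_const, Finset.card_univ, Fintype.card_fin, nsmul_eq_mul]
    field_simp
  · intro F
    unfold AA FP.E
    show _ = ∑ x : I, _
    rw [Fintype.sum_sigma, Finset.sum_range, Finset.sum_div]
    refine Finset.sum_congr rfl fun n _ => ?_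
    rw [EE_words, Finset.sum_div, Finset.sum_div]
    refine Finset.sum_congr rfl fun w _ => ?_
    simp only
    field_simp

end

namespace FP

variable {Γ Δ : Type} (P : FP Γ) (R : FP Δ)

theorem E_const (c : ℝ) : P.E (fun _ => c) = c := by
  unfold E
  rw [← Finset.sum_mul, P.one, one_mul]

theorem E_mono {F G : Γ → ℝ} (h : ∀ g, F g ≤ G g) : P.E F ≤ P.E G :=
  Finset.sum_le_sum fun i _ => mul_le_mul_of_nonneg_left (h _) (P.nn i)

theorem E_nonneg {F : Γ → ℝ} (h : ∀ g, 0 ≤ F g) : 0 ≤ P.E F :=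
  Finset.sum_nonneg fun i _ => mul_nonneg (P.nn i) (h _)

theorem E_add (F G : Γ → ℝ) : P.E (fun g => F g + G g) = P.E F + P.E G := by
  unfold E
  rw [← Finset.sum_add_distrib]
  exact Finset.sum_congr rfl fun i _ => mul_add _ _ _

theorem E_mul_left (c : ℝ) (F : Γ → ℝ) : P.E (fun g => c * F g) = c * P.E F := by
  unfold E
  rw [Finset.mul_sum]
  exact Finset.sum_congr rfl fun i _ => by ring

theorem E_comm (F : Γ → Δ → ℝ) :
    P.E (fun g => R.E (fun h => F g h)) = R.E (fun h => P.E (fun g => F g h)) := by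
  unfold E
  simp only [Finset.mul_sum]
  rw [Finset.sum_comm]
  exact Finset.sum_congr rfl fun i _ => Finset.sum_congr rfl fun j _ => by ring

theorem E_sq (F : Γ → ℝ) : (P.E F) ^ 2 ≤ P.E (fun g => F g ^ 2) := by
  unfold E
  have h := Finset.sum_mul_sq_le_sq_mul_sq Finset.univ (fun i => Real.sqrt (P.p i))
    (fun i => Real.sqrt (P.p i) * F (P.el i))
  have h1 : ∀ i, Real.sqrt (P.p i) * (Real.sqrt (P.p i) * F (P.el i)) = P.p i * F (P.el i) := by
    intro i
    rw [← mul_assoc, Real.mul_self_sqrt (P.nn i)]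
  have h2 : ∀ i, Real.sqrt (P.p i) ^ 2 = P.p i := fun i => Real.sq_sqrt (P.nn i)
  have h3 : ∀ i, (Real.sqrt (P.p i) * F (P.el i)) ^ 2 = P.p i * F (P.el i) ^ 2 := by
    intro i
    rw [mul_pow, h2]
  simp only [h1, h2, h3, P.one, one_mul] at h
  exact h

end FP

section

variable {Γ : Type} [Group Γ] {s : ℕ}

theorem EE_append (a : Fin s → Γ) (m n : ℕ) (F : Γ → ℝ) :
    EE a (m + n) F = EE a m (fun g => EE a n (fun h => F (g * h))) := by
  induction m generalizing F with
  | zero => simp [EE]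
  | succ m ih =>
    have : m + 1 + n = (m + n) + 1 := by ring
    rw [this, EE, EE]
    congr 1
    refine Finset.sum_congr rfl fun i _ => ?_
    rw [ih]
    congr 1
    funext g
    congr 1
    funext h
    rw [mul_assoc]

theorem EE_succ' (a : Fin s → Γ) (n : ℕ) (F : Γ → ℝ) :
    EE a (n + 1) F = EE a n (fun g => (∑ i, F (g * a i)) / s) := by
  rw [EE_append]
  congr 1
  funext g
  rw [EE]
  congr 1
  refine Finset.sum_congr rfl fun i _ => ?_
  rw [EE, mul_one]

theorem EE_nonneg (a : Fin s → Γ) (n : ℕ) {F : Γ → ℝ} (h : ∀ g, 0 ≤ F g) : 0 ≤ EE a n F := by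
  rw [EE_words]
  exact div_nonneg (Finset.sum_nonneg fun _ _ => h _) (by positivity)

theorem EE_le_one (hs : 1 ≤ s) (a : Fin s → Γ) (n : ℕ) {F : Γ → ℝ} (h : ∀ g, F g ≤ 1) :
    EE a n F ≤ 1 := by
  rw [EE_words, div_le_one (by positivity)]
  calc ∑ w : Fin n → Fin s, F (List.ofFn fun i => a (w i)).prod
      ≤ ∑ _w : Fin n → Fin s, (1 : ℝ) := Finset.sum_le_sum fun _ _ => h _
    _ = _ := by simp

/-- shifting the lengths -/
theorem AA_shift (hs : 1 ≤ s) (a : Fin s → Γ) (N M : ℕ) (hN : 1 ≤ N) (hM : 1 ≤ M) {F : Γ → ℝ}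
    (h0 : ∀ g, 0 ≤ F g) (h1 : ∀ g, F g ≤ 1) :
    AA a N F ≤ M / N + AA a M (fun g => AA a N (fun h => F (g * h))) := by
  have hN0 : (0 : ℝ) < N := by positivity
  have hM0 : (0 : ℝ) < M := by positivity
  have key : ∀ i ∈ range M, ∑ n ∈ range N, EE a n F ≤ M + ∑ j ∈ range N, EE a (i + j) F := by
    intro i hi
    have hiM : i < M := mem_range.1 hi
    have e1 : ∑ n ∈ range N, EE a n F ≤ ∑ n ∈ range (i + N), EE a n F := by
      refine Finset.sum_le_sum_of_subset_of_nonneg ?_ fun n _ _ => EE_nonneg a n h0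
      exact Finset.range_subset_range.2 (by omega)
    have e2 : ∑ n ∈ range (i + N), EE a n F =
        ∑ n ∈ range i, EE a n F + ∑ j ∈ range N, EE a (i + j) F := Finset.sum_range_add _ _ _
    have e3 : ∑ n ∈ range i, EE a n F ≤ M := by
      calc ∑ n ∈ range i, EE a n F ≤ ∑ _n ∈ range i, (1 : ℝ) :=
            Finset.sum_le_sum fun n _ => EE_le_one hs a n h1
        _ = i := by simp
        _ ≤ M := by exact_mod_cast hiM.le
    linarith
  have h2 := Finset.sum_le_sum key
  rw [Finset.sum_const, card_range, nsmul_eq_mul, Finset.sum_add_distrib, Finset.sum_const,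
    card_range, nsmul_eq_mul] at h2
  have h3 : ∑ i ∈ range M, ∑ j ∈ range N, EE a (i + j) F =
      N * (M * AA a M (fun g => AA a N (fun h => F (g * h)))) := by
    unfold AA
    rw [mul_div_cancel₀ _ hM0.ne', Finset.mul_sum]
    refine Finset.sum_congr rfl fun i _ => ?_
    have : ∀ j ∈ range N, EE a (i + j) F = EE a i (fun g => EE a j (fun h => F (g * h))) :=
      fun j _ => EE_append a i j F
    rw [Finset.sum_congr rfl this]
    simp only [EE_words a i]
    rw [← Finset.sum_div, Finset.sum_comm, mul_div_assoc', Finset.mul_sum]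
    congr 1
    refine Finset.sum_congr rfl fun w _ => ?_
    rw [mul_div_cancel₀ _ hN0.ne']
  rw [h3] at h2
  unfold AA at h2 ⊢
  set A := ∑ n ∈ range N, EE a n F
  set B := (∑ n ∈ range M, EE a n fun g => (∑ n ∈ range N, EE a n fun h => F (g * h)) / ↑N) / ↑M
  rw [div_le_iff₀ hN0]
  have : (↑M / ↑N + B) * ↑N = M + B * N := by field_simp
  rw [this]
  have h4 : (M : ℝ) * A ≤ M * (M + B * N) := by nlinarith
  exact le_of_mul_le_mul_left h4 hM0

end

end Pool.Agent.N470.RW
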