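import Mathlib

set_option autoImplicit false

/-! # The action of matrices on the polynomials of bounded degree -/

namespace Pool.Agent.N470.RW

open MvPolynomial

section

variable {K : Type} [Field K] {l m r : ℕ}

/-- substitution of the linear forms given by the rows of a matrix -/
noncomputable def pull (A : Matrix (Fin m) (Fin r) K) :
    MvPolynomial (Fin m) K →ₐ[K] MvPolynomial (Fin r) K :=
  aeval (fun i => ∑ j, C (A i j) * X j)

theorem eval_pull (A : Matrix (Fin m) (Fin r) K) (f : MvPolynomial (Fin m) K) (x : Fin r → K) :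
    eval x (pull A f) = eval (A.mulVec x) f := by
  unfold pull
  rw [← MvPolynomial.coe_aeval_eq_eval, ← MvPolynomial.coe_aeval_eq_eval]
  show (aeval x : MvPolynomial (Fin r) K →ₐ[K] K) _ = (aeval (A.mulVec x)) f
  rw [MvPolynomial.comp_aeval_apply]
  congr 2
  funext i
  rw [map_sum]
  simp [Matrix.mulVec, dotProduct]

theorem pull_mul (A : Matrix (Fin l) (Fin m) K) (B : Matrix (Fin m) (Fin r) K)
    (f : MvPolynomial (Fin l) K) : pull (A * B) f = pull B (pull A f) := by
  have h : pull (A * B) = (pull B).comp (pull A) := by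
    refine MvPolynomial.algHom_ext fun i => ?_
    show pull (A * B) (X i) = pull B (pull A (X i))
    unfold pull
    simp only [aeval_X, map_sum, map_mul, algHom_C, Finset.mul_sum, Matrix.mul_apply,
      Finset.sum_mul]
    rw [Finset.sum_comm]
    refine Finset.sum_congr rfl fun a _ => Finset.sum_congr rfl fun b _ => ?_
    simp only [algebraMap_eq]
    ring
  rw [h]
  rfl

theorem pull_one (f : MvPolynomial (Fin r) K) : pull (1 : Matrix (Fin r) (Fin r) K) f = f := by
  have h : pull (1 : Matrix (Fin r) (Fin r) K) = AlgHom.id K _ := by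
    refine MvPolynomial.algHom_ext fun i => ?_
    unfold pull
    simp [Matrix.one_apply]
  rw [h]
  rfl

theorem totalDegree_pull (A : Matrix (Fin m) (Fin r) K) (f : MvPolynomial (Fin m) K) :
    (pull A f).totalDegree ≤ f.totalDegree := by
  classical
  unfold pull
  rw [MvPolynomial.aeval_def, MvPolynomial.eval₂_eq']
  refine totalDegree_finsetSum_le fun s hs => ?_
  refine (totalDegree_mul _ _).trans ?_
  have h1 : (algebraMap K (MvPolynomial (Fin r) K) (f.coeff s)).totalDegree = 0 := by
    rw [algebraMap_eq, totalDegree_C]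
  rw [h1, zero_add]
  refine (totalDegree_finsetProd _ _).trans ?_
  have h2 : ∀ i ∈ (Finset.univ : Finset (Fin m)),
      ((∑ j, C (A i j) * X j : MvPolynomial (Fin r) K) ^ s i).totalDegree ≤ s i := by
    intro i _
    refine (totalDegree_pow _ _).trans ?_
    have h3 : (∑ j, C (A i j) * X j : MvPolynomial (Fin r) K).totalDegree ≤ 1 := by
      refine totalDegree_finsetSum_le fun j _ => ?_
      refine (totalDegree_mul _ _).trans ?_
      rw [totalDegree_C, zero_add]
      exact (totalDegree_X _).le
    calc s i * _ ≤ s i * 1 := Nat.mul_le_mul_left _ h3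
      _ = s i := mul_one _
  refine (Finset.sum_le_sum h2).trans ?_
  have h4 := le_totalDegree hs
  rwa [Finsupp.sum_fintype _ _ (fun _ => rfl)] at h4

theorem finrank_restrict (N m : ℕ) :
    Module.finrank K (restrictTotalDegree (Fin N) K m) ≤ (N + m).choose m := by
  classical
  set T := (Finset.univ : Finset (Option (Fin N))).finsuppAntidiag m with hT
  have hcard : T.card = (N + m).choose m := by
    rw [hT, Finset.card_finsuppAntidiag_nat_eq_choose]
    rw [Finset.card_univ, Fintype.card_option, Fintype.card_fin]
    rw [show N + 1 + m - 1 = N + m by omega]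
  have hb := MvPolynomial.basisRestrictSupport K {n : Fin N →₀ ℕ | (n.sum fun _ e => e) ≤ m}
  have hfr : Module.finrank K (MvPolynomial.restrictTotalDegree (Fin N) K m) =
      Nat.card {n : Fin N →₀ ℕ | (n.sum fun _ e => e) ≤ m} :=
    Module.finrank_eq_nat_card_basis hb
  rw [hfr, ← hcard, ← Fintype.card_coe, ← Nat.card_eq_fintype_card]
  apply Nat.card_le_card_of_injective
    (fun s : {n : Fin N →₀ ℕ | (n.sum fun _ e => e) ≤ m} =>
      (⟨s.1.optionElim (m - (s.1.sum fun _ e => e)), by
      rw [hT, Finset.mem_finsuppAntidiag]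
      refine ⟨?_, Finset.subset_univ _⟩
      rw [Fintype.sum_option]
      simp only [Finsupp.optionElim_apply_none, Finsupp.optionElim_apply_some]
      have h1 : (s.1.sum fun _ e => e) = ∑ i, s.1 i := Finsupp.sum_fintype _ _ (fun _ => rfl)
      have h2 : (s.1.sum fun _ e => e) ≤ m := s.2
      omega⟩ : T))
  intro s s' h
  apply Subtype.ext
  ext i
  have h1 := congrArg (fun t : T => (t : Option (Fin N) →₀ ℕ) (some i)) h
  simpa using h1

/-- the action of a matrix on the polynomials of degree at most `d` -/
noncomputable def pullV (d : ℕ) (A : Matrix (Fin r) (Fin r) K) :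
    restrictTotalDegree (Fin r) K d →ₗ[K] restrictTotalDegree (Fin r) K d :=
  (pull A).toLinearMap.restrict fun f hf => by
    rw [mem_restrictTotalDegree] at hf ⊢
    exact (totalDegree_pull A f).trans hf

theorem pullV_coe (d : ℕ) (A : Matrix (Fin r) (Fin r) K) (f : restrictTotalDegree (Fin r) K d) :
    (pullV d A f : MvPolynomial (Fin r) K) = pull A f := rfl

theorem pullV_mul (d : ℕ) (A B : Matrix (Fin r) (Fin r) K)
    (f : restrictTotalDegree (Fin r) K d) : pullV d (A * B) f = pullV d B (pullV d A f) := by
  apply Subtype.ext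
  rw [pullV_coe, pullV_coe, pullV_coe, pull_mul]

theorem pullV_one (d : ℕ) (f : restrictTotalDegree (Fin r) K d) :
    pullV d (1 : Matrix (Fin r) (Fin r) K) f = f := by
  apply Subtype.ext
  rw [pullV_coe, pull_one]

variable {H : Type} [Group H]

/-- the action of a group of matrices on the subspaces of the space of polynomials of degree at
most `d` -/
@[reducible] noncomputable def actn (d : ℕ) (ρ : H →* Matrix.GeneralLinearGroup (Fin r) K) :
    MulAction H (Submodule K (restrictTotalDegree (Fin r) K d)) where
  smul g Q := Q.map (pullV d (ρ g⁻¹ : Matrix (Fin r) (Fin r) K))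
  one_smul Q := by
    show Q.map (pullV d (ρ 1⁻¹ : Matrix (Fin r) (Fin r) K)) = Q
    have h : pullV d (ρ 1⁻¹ : Matrix (Fin r) (Fin r) K) = LinearMap.id := by
      ext1 f
      rw [inv_one, map_one, Units.val_one, pullV_one]
      rfl
    rw [h, Submodule.map_id]
  mul_smul g h Q := by
    show Q.map (pullV d (ρ (g * h)⁻¹ : Matrix (Fin r) (Fin r) K)) =
      (Q.map (pullV d (ρ h⁻¹ : Matrix (Fin r) (Fin r) K))).map
        (pullV d (ρ g⁻¹ : Matrix (Fin r) (Fin r) K))
    rw [← Submodule.map_comp]
    congr 1
    ext1 f
    rw [mul_inv_rev, map_mul, Units.val_mul, pullV_mul]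
    rfl

end

end Pool.Agent.N470.RW
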