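import Pool.Agent.N470.RW.Mean

set_option autoImplicit false

/-! # Random words on an infinite orbit are spread out -/

namespace Pool.Agent.N470.RW

open Finset

open scoped Classical

section

variable {Γ Ω : Type} [Group Γ] [MulAction Γ Ω] {s : ℕ}

/-- the graph of the letters -/
def gr (Ω : Type) [MulAction Γ Ω] (a : Fin s → Γ) : SimpleGraph Ω where
  Adj u v := u ≠ v ∧ ∃ i, a i • u = v ∨ a i • v = u
  symm := ⟨fun _ _ h => ⟨h.1.symm, by
    obtain ⟨i, hi⟩ := h.2
    exact ⟨i, hi.symm⟩⟩⟩
  loopless := ⟨fun _ h => h.1 rfl⟩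

theorem reach_letter (a : Fin s → Γ) (i : Fin s) (u : Ω) : (gr Ω a).Reachable u (a i • u) := by
  by_cases h : u = a i • u
  · rw [← h]
  · exact SimpleGraph.Adj.reachable ⟨h, i, Or.inl rfl⟩

theorem reach_all (a : Fin s → Γ) (hgen : Subgroup.closure (Set.range a) = ⊤) (g : Γ) :
    ∀ u : Ω, (gr Ω a).Reachable u (g • u) := by
  have hg : g ∈ Subgroup.closure (Set.range a) := by rw [hgen]; exact Subgroup.mem_top _
  induction hg using Subgroup.closure_induction with
  | mem x hx =>
    obtain ⟨i, rfl⟩ := hx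
    exact reach_letter a i
  | one => intro u; rw [one_smul]
  | mul x y _ _ hx hy =>
    intro u
    rw [mul_smul]
    exact (hy u).trans (hx _)
  | inv x _ hx =>
    intro u
    have := hx (x⁻¹ • u)
    rw [smul_inv_smul] at this
    exact this.symm

/-- first exit of a walk -/
theorem exit_walk {G : SimpleGraph Ω} (S : Set Ω) {u z : Ω} (p : G.Walk u z) (hu : u ∈ S)
    (hz : z ∉ S) : ∃ (z' : Ω) (q : G.Walk u z'), z' ∉ S ∧ ∀ x ∈ q.support, x = z' ∨ x ∈ S := by
  induction p with
  | nil => exact absurd hu hz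
  | cons h p ih =>
    rename_i u v w
    by_cases hv : v ∈ S
    · obtain ⟨z', q, h1, h2⟩ := ih hv hz
      refine ⟨z', SimpleGraph.Walk.cons h q, h1, ?_⟩
      intro x hx
      rw [SimpleGraph.Walk.support_cons, List.mem_cons] at hx
      rcases hx with rfl | hx
      · exact Or.inr hu
      · exact h2 x hx
    · refine ⟨v, SimpleGraph.Walk.cons h SimpleGraph.Walk.nil, hv, ?_⟩
      intro x hx
      rw [SimpleGraph.Walk.support_cons, List.mem_cons] at hx
      rcases hx with rfl | hx
      · exact Or.inr hu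
      · left
        simpa using hx

/-- the increment of a function along a path -/
theorem path_sum {G : SimpleGraph Ω} (α e : Ω → ℝ) (h : ∀ u v, G.Adj u v → α u - α v ≤ e u)
    {u z : Ω} (p : G.Walk u z) : α u - α z ≤ (p.support.dropLast.map e).sum := by
  induction p with
  | nil => simp
  | cons hadj p ih =>
    rename_i u v w
    have h1 : (SimpleGraph.Walk.cons hadj p).support.dropLast = u :: p.support.dropLast := by
      rw [SimpleGraph.Walk.support_cons]
      exact List.dropLast_cons_of_ne_nil (SimpleGraph.Walk.support_ne_nil p)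
    rw [h1, List.map_cons, List.sum_cons]
    have := h u v hadj
    linarith

theorem path_bound {G : SimpleGraph Ω} (α e : Ω → ℝ) (he : ∀ u, 0 ≤ e u)
    (h : ∀ u v, G.Adj u v → α u - α v ≤ e u) (S : Finset Ω)
    {u z : Ω} (p : G.Walk u z) (hu : u ∈ S) (hz : z ∉ S) :
    ∃ z', z' ∉ S ∧ α u - α z' ≤ ∑ x ∈ S, e x := by
  obtain ⟨z', q, h1, h2⟩ := exit_walk (S : Set Ω) p (by exact_mod_cast hu) (by exact_mod_cast hz)
  refine ⟨z', by exact_mod_cast h1, ?_⟩
  have h3 := path_sum α e h q.bypass
  have hp : q.bypass.IsPath := q.bypass_isPath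
  have hnd : q.bypass.support.Nodup := hp.support_nodup
  refine h3.trans ?_
  have hnd2 : q.bypass.support.dropLast.Nodup := hnd.sublist (List.dropLast_sublist _)
  rw [← List.sum_toFinset e hnd2]
  refine Finset.sum_le_sum_of_subset_of_nonneg ?_ fun x _ _ => he x
  intro x hx
  rw [List.mem_toFinset] at hx
  have hx1 : x ∈ q.bypass.support := List.mem_of_mem_dropLast hx
  have hx2 : x ≠ z' := by
    rintro rfl
    have h4 : q.bypass.support = q.bypass.support.dropLast ++ [x] := by
      have := List.dropLast_append_getLast (SimpleGraph.Walk.support_ne_nil q.bypass)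
      rw [SimpleGraph.Walk.getLast_support] at this
      exact this.symm
    rw [h4, List.nodup_append] at hnd
    exact hnd.2.2 x hx x (by simp) rfl
  have h5 := h2 x (q.support_bypass_subset hx1)
  rcases h5 with h5 | h5
  · exact absurd h5 hx2
  · exact_mod_cast h5

/-- point masses -/
noncomputable def pm (Q y : Ω) (g : Γ) : ℝ := if g⁻¹ • Q = y then 1 else 0

theorem pm_nonneg (Q y : Ω) (g : Γ) : 0 ≤ pm Q y g := by
  unfold pm; split_ifs <;> norm_num

theorem pm_le (Q y : Ω) (g : Γ) : pm Q y g ≤ 1 := by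
  unfold pm; split_ifs <;> norm_num

theorem EE_succ_pm (a : Fin s → Γ) (n : ℕ) (Q y : Ω) :
    EE a (n + 1) (pm Q y) = (∑ i, EE a n (pm Q (a i • y))) / s := by
  rw [EE_succ']
  have h1 : ∀ (i : Fin s) (g : Γ), pm Q y (g * a i) = pm Q (a i • y) g := by
    intro i g
    unfold pm
    have : ((g * a i)⁻¹ • Q = y) ↔ (g⁻¹ • Q = a i • y) := by
      rw [mul_inv_rev, mul_smul, inv_smul_eq_iff]
    simp only [this]
  simp only [h1, EE_words]
  rw [← Finset.sum_div, ← Finset.sum_div, Finset.sum_comm]
  ring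

theorem AA_lap (a : Fin s → Γ) (N : ℕ) (Q y : Ω) :
    AA a N (pm Q y) - (∑ i, AA a N (pm Q (a i • y))) / s =
      (EE a 0 (pm Q y) - EE a N (pm Q y)) / N := by
  unfold AA
  rw [← Finset.sum_div, Finset.sum_comm]
  have h1 : (∑ n ∈ range N, ∑ i, EE a n (pm Q (a i • y))) / (N : ℝ) / s =
      (∑ n ∈ range N, EE a (n + 1) (pm Q y)) / N := by
    have : ∀ n ∈ range N, EE a (n + 1) (pm Q y) = (∑ i, EE a n (pm Q (a i • y))) / s :=
      fun n _ => EE_succ_pm a n Q y
    rw [Finset.sum_congr rfl this, ← Finset.sum_div]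
    ring
  rw [h1, ← sub_div]
  congr 1
  have h2 := Finset.sum_range_succ (fun n => EE a n (pm Q y)) N
  have h3 := Finset.sum_range_succ' (fun n => EE a n (pm Q y)) N
  linarith

theorem fin_supp (P : FP Γ) (Q : Ω) : (Function.support fun y => P.E (pm Q y)).Finite := by
  refine Set.Finite.subset (Set.finite_range fun i => (P.el i)⁻¹ • Q) ?_
  intro y hy
  by_contra hcon
  apply hy
  show ∑ i, P.p i * pm Q y (P.el i) = 0
  refine Finset.sum_eq_zero fun i _ => ?_
  unfold pm
  rw [if_neg fun h => hcon ⟨i, h⟩, mul_zero]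

theorem sum_pm (P : FP Γ) (Q : Ω) (g : Ω → ℝ) :
    ∑' y, P.E (pm Q y) * g y = P.E fun h => g (h⁻¹ • Q) := by
  have h1 : ∀ y, P.E (pm Q y) * g y = ∑ i, P.p i * (pm Q y (P.el i) * g y) := by
    intro y
    unfold FP.E
    rw [Finset.sum_mul]
    exact Finset.sum_congr rfl fun i _ => by ring
  simp only [h1]
  have hpt : ∀ i, (fun y => P.p i * (pm Q y (P.el i) * g y)) =
      fun y => if y = (P.el i)⁻¹ • Q then P.p i * g y else 0 := by
    intro i
    funext y
    unfold pm
    by_cases h : y = (P.el i)⁻¹ • Q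
    · rw [if_pos h, if_pos h.symm, one_mul]
    · rw [if_neg h, if_neg fun h' => h h'.symm, zero_mul, mul_zero]
  rw [Summable.tsum_finsetSum]
  · unfold FP.E
    refine Finset.sum_congr rfl fun i _ => ?_
    rw [hpt i, tsum_ite_eq]
  · intro i _
    rw [hpt i]
    refine summable_of_finite_support ?_
    refine Set.Finite.subset (Set.finite_singleton ((P.el i)⁻¹ • Q)) ?_
    intro y hy
    by_contra hcon
    apply hy
    show (if y = (P.el i)⁻¹ • Q then P.p i * g y else 0) = 0
    rw [if_neg]
    exact fun h => hcon h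

/-- **Random words on an infinite orbit are spread out.** -/
theorem walk (hs : 1 ≤ s) (a : Fin s → Γ) (hgen : Subgroup.closure (Set.range a) = ⊤) (Q : Ω)
    (hinf : (MulAction.orbit Γ Q).Infinite) (N : ℕ) (hN : 1 ≤ N) (y : Ω) :
    AA a N (pm Q y) ≤ 6 * Real.sqrt (s / N) := by
  have hs0 : (0 : ℝ) < s := by positivity
  have hN0 : (0 : ℝ) < N := by positivity
  obtain ⟨P, hP⟩ := exists_AA hs a N hN
  set α : Ω → ℝ := fun y => P.E (pm Q y) with hα
  have hAα : ∀ y, AA a N (pm Q y) = α y := fun y => hP _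
  have hα0 : ∀ y, 0 ≤ α y := fun y => P.E_nonneg (pm_nonneg Q y)
  have hfin : (Function.support α).Finite := fin_supp P Q
  rw [hAα]
  by_cases hy0 : α y = 0
  · rw [hy0]; positivity
  -- the maximum
  obtain ⟨y₀, hy₀, hmax⟩ := Set.exists_max_image (Function.support α) α hfin ⟨y, hy0⟩
  have hmax' : ∀ y, α y ≤ α y₀ := by
    intro y
    by_cases h : α y = 0
    · rw [h]; exact hα0 _
    · exact hmax y h
  refine (hmax' y).trans ?_
  set m : ℝ := α y₀ with hm
  have hm0 : 0 < m := lt_of_le_of_ne (hα0 _) (Ne.symm hy₀)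
  -- summability
  have hfi : ∀ i, (Function.support fun y => α (a i • y)).Finite := by
    intro i
    exact hfin.preimage ((MulAction.injective (a i)).injOn)
  have hfi' : ∀ i, (Function.support fun y => α ((a i)⁻¹ • y)).Finite := by
    intro i
    exact hfin.preimage ((MulAction.injective (a i)⁻¹).injOn)
  have sq_s : Summable fun y => α y ^ 2 := summable_of_finite_support
    (hfin.subset fun y hy h => hy (by simp [h]))
  have sq_si : ∀ i, Summable fun y => α (a i • y) ^ 2 := fun i => summable_of_finite_support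
    ((hfi i).subset fun y hy h => hy (by
      have : α (a i • y) = 0 := h
      simp [this]))
  have pr_s : ∀ i, Summable fun y => α y * α (a i • y) := fun i => summable_of_finite_support
    (hfin.subset fun y hy h => hy (by simp [h]))
  have d_s : ∀ i, Summable fun y => (α y - α (a i • y)) ^ 2 := by
    intro i
    refine summable_of_finite_support ((hfin.union (hfi i)).subset ?_)
    intro y hy
    by_contra hcon
    rw [Set.mem_union, not_or] at hcon
    apply hy
    have h1 : α y = 0 := by
      by_contra h; exact hcon.1 h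
    have h2 : α (a i • y) = 0 := by
      by_contra h; exact hcon.2 h
    simp [h1, h2]
  have d_s' : ∀ i, Summable fun y => (α y - α ((a i)⁻¹ • y)) ^ 2 := by
    intro i
    refine summable_of_finite_support ((hfin.union (hfi' i)).subset ?_)
    intro y hy
    by_contra hcon
    rw [Set.mem_union, not_or] at hcon
    apply hy
    have h1 : α y = 0 := by
      by_contra h; exact hcon.1 h
    have h2 : α ((a i)⁻¹ • y) = 0 := by
      by_contra h; exact hcon.2 h
    simp [h1, h2]
  -- mass
  have hmass : ∑' y, α y = 1 := by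
    have := sum_pm P Q (fun _ => (1 : ℝ))
    simp only [mul_one] at this
    rw [← P.E_const 1]
    exact this
  have hsum : Summable α := summable_of_finite_support hfin
  -- reindexing
  have hre : ∀ i, ∑' y, α (a i • y) ^ 2 = ∑' y, α y ^ 2 := fun i =>
    (MulAction.toPerm (a i)).tsum_eq (fun y => α y ^ 2)
  have hre' : ∀ i, ∑' y, (α y - α ((a i)⁻¹ • y)) ^ 2 = ∑' y, (α y - α (a i • y)) ^ 2 := by
    intro i
    rw [← (MulAction.toPerm (a i)).tsum_eq (fun y => (α y - α ((a i)⁻¹ • y)) ^ 2)]
    refine tsum_congr fun y => ?_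
    show (α (a i • y) - α ((a i)⁻¹ • a i • y)) ^ 2 = _
    rw [inv_smul_smul]
    ring
  -- energy
  have hen : ∑ i, ∑' y, (α y - α (a i • y)) ^ 2 ≤ 2 * s * m / N := by
    have h1 : ∀ i, ∑' y, (α y - α (a i • y)) ^ 2 =
        2 * ∑' y, α y ^ 2 - 2 * ∑' y, α y * α (a i • y) := by
      intro i
      have e1 : ∀ y, (α y - α (a i • y)) ^ 2 =
          α y ^ 2 + α (a i • y) ^ 2 - 2 * (α y * α (a i • y)) := fun y => by ring
      simp only [e1]
      rw [(sq_s.add (sq_si i)).tsum_sub ((pr_s i).mul_left 2), sq_s.tsum_add (sq_si i), hre i,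
        tsum_mul_left]
      ring
    simp only [h1]
    rw [Finset.sum_sub_distrib, Finset.sum_const, card_univ, Fintype.card_fin, nsmul_eq_mul,
      ← Finset.mul_sum]
    have h2 : ∑ i, ∑' y, α y * α (a i • y) = s * ∑' y, α y * ((∑ i, α (a i • y)) / s) := by
      have e2 : ∀ y, α y * ((∑ i, α (a i • y)) / s) = (∑ i, α y * α (a i • y)) * (1 / s) := by
        intro y
        rw [← Finset.mul_sum]
        ring
      simp only [e2]
      rw [tsum_mul_right, Summable.tsum_finsetSum (fun i _ => pr_s i)]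
      field_simp
    have h3 : ∀ y, α y - (∑ i, α (a i • y)) / s =
        (EE a 0 (pm Q y) - EE a N (pm Q y)) / N := by
      intro y
      have := AA_lap a N Q y
      simp only [hAα] at this
      exact this
    have h4 : ∑' y, α y ^ 2 - ∑' y, α y * ((∑ i, α (a i • y)) / s) ≤ m / N := by
      have s2 : Summable fun y => α y * ((∑ i, α (a i • y)) / s) := summable_of_finite_support
        (hfin.subset fun y hy h => hy (by simp [h]))
      rw [← sq_s.tsum_sub s2]
      have e3 : ∀ y, α y ^ 2 - α y * ((∑ i, α (a i • y)) / s) ≤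
          (if y = Q then m / N else 0) := by
        intro y
        have e4 : α y ^ 2 - α y * ((∑ i, α (a i • y)) / s) =
            α y * ((EE a 0 (pm Q y) - EE a N (pm Q y)) / N) := by
          rw [← h3 y]; ring
        rw [e4]
        have e5 : 0 ≤ EE a N (pm Q y) := EE_nonneg a N (pm_nonneg Q y)
        have e6 : EE a 0 (pm Q y) = if y = Q then 1 else 0 := by
          show pm Q y 1 = _
          unfold pm
          rw [inv_one, one_smul]
          simp only [eq_comm]
        rw [e6]
        by_cases hyQ : y = Q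
        · rw [if_pos hyQ, if_pos hyQ]
          have e7 : α y ≤ m := hmax' y
          have e8 : (1 - EE a N (pm Q y)) / N ≤ 1 / N := by gcongr; linarith
          calc α y * ((1 - EE a N (pm Q y)) / N) ≤ α y * (1 / N) :=
                mul_le_mul_of_nonneg_left e8 (hα0 y)
            _ ≤ m * (1 / N) := mul_le_mul_of_nonneg_right e7 (by positivity)
            _ = m / N := by ring
        · rw [if_neg hyQ, if_neg hyQ]
          have e9 : (0 - EE a N (pm Q y)) / N ≤ 0 := by
            apply div_nonpos_of_nonpos_of_nonneg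
            · linarith
            · positivity
          exact mul_nonpos_of_nonneg_of_nonpos (hα0 y) e9
      have s3 : Summable fun y : Ω => (if y = Q then m / N else (0 : ℝ)) := by
        refine summable_of_finite_support (Set.Finite.subset (Set.finite_singleton Q) ?_)
        intro y hy
        by_contra hcon
        apply hy
        show (if y = Q then m / N else (0 : ℝ)) = 0
        rw [if_neg]
        exact fun h => hcon h
      refine (Summable.tsum_le_tsum e3 (sq_s.sub s2) s3).trans ?_
      rw [tsum_ite_eq]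
    rw [h2]
    have h5 : (s : ℝ) * (2 * ∑' y, α y ^ 2) - 2 * (s * ∑' y, α y * ((∑ i, α (a i • y)) / s)) =
        2 * s * (∑' y, α y ^ 2 - ∑' y, α y * ((∑ i, α (a i • y)) / s)) := by ring
    rw [h5]
    calc 2 * (s : ℝ) * (∑' y, α y ^ 2 - ∑' y, α y * ((∑ i, α (a i • y)) / s))
        ≤ 2 * s * (m / N) := mul_le_mul_of_nonneg_left h4 (by positivity)
      _ = 2 * s * m / N := by ring
  -- the local energy
  set W : Ω → ℝ := fun y => ∑ i, ((α y - α (a i • y)) ^ 2 + (α y - α ((a i)⁻¹ • y)) ^ 2) with hW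
  have hW0 : ∀ y, 0 ≤ W y := fun y => Finset.sum_nonneg fun i _ => by positivity
  have hWs : Summable W := summable_sum fun i _ => (d_s i).add (d_s' i)
  have hWt : ∑' y, W y ≤ 4 * s * m / N := by
    rw [hW, Summable.tsum_finsetSum (fun i _ => (d_s i).add (d_s' i))]
    have : ∀ i, ∑' y, ((α y - α (a i • y)) ^ 2 + (α y - α ((a i)⁻¹ • y)) ^ 2) =
        2 * ∑' y, (α y - α (a i • y)) ^ 2 := by
      intro i
      rw [(d_s i).tsum_add (d_s' i), hre' i]
      ring
    simp only [this]
    rw [← Finset.mul_sum]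
    calc 2 * ∑ i, ∑' y, (α y - α (a i • y)) ^ 2 ≤ 2 * (2 * s * m / N) := by linarith
      _ = _ := by ring
  -- the level set
  set S : Finset Ω := hfin.toFinset.filter fun y => m / 2 < α y with hS
  have hSmem : ∀ y, y ∈ S ↔ m / 2 < α y := by
    intro y
    rw [hS, Finset.mem_filter, Set.Finite.mem_toFinset]
    refine ⟨fun h => h.2, fun h => ⟨?_, h⟩⟩
    have : 0 < α y := lt_trans (by positivity) h
    exact this.ne'
  have hScard : (S.card : ℝ) * (m / 2) ≤ 1 := by
    rw [← hmass]
    refine le_trans ?_ (hsum.sum_le_tsum S fun y _ => hα0 y)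
    rw [← nsmul_eq_mul]
    exact Finset.card_nsmul_le_sum _ _ _ fun y hy => ((hSmem y).1 hy).le
  -- a point outside
  have hy₀S : y₀ ∈ S := (hSmem y₀).2 (by linarith)
  have hex : ∃ z, z ∉ S ∧ (gr Ω a).Reachable y₀ z := by
    obtain ⟨i, hi⟩ : ∃ i, (P.el i)⁻¹ • Q = y₀ := by
      by_contra hcon
      push Not at hcon
      apply hy₀
      show ∑ i, P.p i * pm Q y₀ (P.el i) = 0
      refine Finset.sum_eq_zero fun i _ => ?_
      unfold pm
      rw [if_neg (hcon i), mul_zero]
    obtain ⟨z, hz, hzS⟩ := hinf.exists_notMem_finset S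
    obtain ⟨g, rfl⟩ := hz
    refine ⟨g • Q, hzS, ?_⟩
    have h1 := reach_all a hgen (g * P.el i) y₀
    rw [← hi, smul_smul, mul_assoc, mul_inv_cancel, mul_one] at h1
    rw [← hi]
    exact h1
  obtain ⟨z, hzS, ⟨p⟩⟩ := hex
  obtain ⟨z', hz', hb⟩ := path_bound α (fun y => Real.sqrt (W y)) (fun _ => Real.sqrt_nonneg _)
    (by
      intro u v huv
      obtain ⟨-, i, hi⟩ := huv
      refine Real.le_sqrt_of_sq_le ?_
      have h1 : (α u - α (a i • u)) ^ 2 + (α u - α ((a i)⁻¹ • u)) ^ 2 ≤ W u :=
        Finset.single_le_sum (f := fun i => (α u - α (a i • u)) ^ 2 +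
          (α u - α ((a i)⁻¹ • u)) ^ 2) (fun i _ => by positivity) (mem_univ i)
      refine le_trans ?_ h1
      rcases hi with rfl | hi
      · nlinarith [sq_nonneg (α u - α ((a i)⁻¹ • u))]
      · have : v = (a i)⁻¹ • u := by rw [← hi, inv_smul_smul]
        rw [this]
        nlinarith [sq_nonneg (α u - α (a i • u))]) S p hy₀S hzS
  have hz'2 : α z' ≤ m / 2 := by
    by_contra h
    push Not at h
    exact hz' ((hSmem z').2 h)
  have hCS : (∑ x ∈ S, Real.sqrt (W x)) ^ 2 ≤ S.card * ∑ x ∈ S, W x := by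
    have h1 := sq_sum_le_card_mul_sum_sq (s := S) (f := fun x => Real.sqrt (W x))
    simp only [Real.sq_sqrt (hW0 _)] at h1
    exact h1
  have hSW : ∑ x ∈ S, W x ≤ 4 * s * m / N := (hWs.sum_le_tsum S fun y _ => hW0 y).trans hWt
  have h6 : (m / 2) ^ 2 ≤ S.card * (4 * s * m / N) := by
    have h7 : m / 2 ≤ ∑ x ∈ S, Real.sqrt (W x) := by
      have : α y₀ = m := rfl
      linarith
    have h8 : (m / 2) ^ 2 ≤ (∑ x ∈ S, Real.sqrt (W x)) ^ 2 := by gcongr
    refine (h8.trans hCS).trans ?_
    exact mul_le_mul_of_nonneg_left hSW (by positivity)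
  have h9 : m ^ 2 ≤ 32 * (s / N) := by
    have h10 : (S.card : ℝ) * (4 * s * m / N) = (S.card * (m / 2)) * (8 * s / N) := by ring
    rw [h10] at h6
    have h11 : (S.card * (m / 2)) * (8 * s / N) ≤ 1 * (8 * (s : ℝ) / N) :=
      mul_le_mul_of_nonneg_right hScard (by positivity)
    have h12 : 32 * ((s : ℝ) / N) = 4 * (1 * (8 * (s : ℝ) / N)) := by ring
    rw [h12]
    nlinarith
  calc m = Real.sqrt (m ^ 2) := (Real.sqrt_sq hm0.le).symm
    _ ≤ Real.sqrt (36 * (s / N)) := Real.sqrt_le_sqrt (by
        have : 0 ≤ (s : ℝ) / N := by positivity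
        linarith)
    _ = 6 * Real.sqrt (s / N) := by
        rw [Real.sqrt_mul (by norm_num)]
        congr 1
        rw [show (36 : ℝ) = 6 ^ 2 by norm_num, Real.sqrt_sq (by norm_num)]

end

end Pool.Agent.N470.RW
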